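import Mathlib
import Pool.Agent.V1153.UG.Def
import Pool.Agent.H159R3.Exp.Curve

/-!
Rational curves of bounded degree from one-parameter groups.
-/

set_option autoImplicit false

namespace Pool.Agent.H60K

open MvPolynomial Pool.Agent.V1153.UG

/-- integral solutions of linear equations with bounded coefficients can be replaced by bounded ones -/
theorem bounded_vectors (m M : ℕ) : ∃ B : ℕ, ∀ (R : Set (Fin m → ℤ)),
    (∀ q ∈ R, ∀ i, |q i| ≤ (M : ℤ)) →
    ∀ (c : Fin m → ℂ) (b : Fin m → ℤ), (∀ q ∈ R, ∑ i, q i * b i = 0) →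
      ∑ i, c i * (b i : ℂ) ≠ 0 →
      ∃ b' : Fin m → ℤ, (∀ i, |b' i| ≤ (B : ℤ)) ∧ (∀ q ∈ R, ∑ i, q i * b' i = 0) ∧
        ∑ i, c i * (b' i : ℂ) ≠ 0 := by
  classical
  have h1 : ∀ R : Set (Fin m → ℤ), ∃ B : ℕ, ∀ (c : Fin m → ℂ) (b : Fin m → ℤ),
      (∀ q ∈ R, ∑ i, q i * b i = 0) → ∑ i, c i * (b i : ℂ) ≠ 0 →
      ∃ b' : Fin m → ℤ, (∀ i, |b' i| ≤ (B : ℤ)) ∧ (∀ q ∈ R, ∑ i, q i * b' i = 0) ∧
        ∑ i, c i * (b' i : ℂ) ≠ 0 := by
    intro R
    let L : Submodule ℤ (Fin m → ℤ) :=
      { carrier := {b | ∀ q ∈ R, ∑ i, q i * b i = 0}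
        add_mem' := by
          intro a b ha hb q hq
          have e : ∑ i, q i * (a + b) i = ∑ i, q i * a i + ∑ i, q i * b i := by
            rw [← Finset.sum_add_distrib]
            exact Finset.sum_congr rfl fun i _ => by rw [Pi.add_apply, mul_add]
          rw [e, ha q hq, hb q hq, add_zero]
        zero_mem' := by
          intro q _
          simp
        smul_mem' := by
          intro r a ha q hq
          have e : ∑ i, q i * (r • a) i = r * ∑ i, q i * a i := by
            rw [Finset.mul_sum]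
            exact Finset.sum_congr rfl fun i _ => by rw [Pi.smul_apply, smul_eq_mul]; ring
          rw [e, ha q hq, mul_zero] }
    obtain ⟨S, hS⟩ := (inferInstance : IsNoetherian ℤ (Fin m → ℤ)).noetherian L
    refine ⟨S.sup fun s => Finset.univ.sup fun i => (s i).natAbs, fun c b hb hc => ?_⟩
    by_contra hcon
    push Not at hcon
    apply hc
    let ψ : (Fin m → ℤ) →ₗ[ℤ] ℂ :=
      { toFun := fun x => ∑ i, c i * (x i : ℂ)
        map_add' := by
          intro x y
          rw [← Finset.sum_add_distrib]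
          exact Finset.sum_congr rfl fun i _ => by rw [Pi.add_apply]; push_cast; ring
        map_smul' := by
          intro r x
          rw [RingHom.id_apply, Finset.smul_sum]
          refine Finset.sum_congr rfl fun i _ => ?_
          rw [Pi.smul_apply, smul_eq_mul, zsmul_eq_mul]
          push_cast
          ring }
    have h2 : L ≤ LinearMap.ker ψ := by
      rw [← hS, Submodule.span_le]
      intro s hs
      rw [SetLike.mem_coe, LinearMap.mem_ker]
      apply hcon s
      · intro i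
        have h3 : (s i).natAbs ≤ S.sup fun s => Finset.univ.sup fun i => (s i).natAbs :=
          le_trans (Finset.le_sup (f := fun i => (s i).natAbs) (Finset.mem_univ i))
            (Finset.le_sup (f := fun s : Fin m → ℤ => Finset.univ.sup fun i => (s i).natAbs)
              (Finset.mem_coe.1 hs))
        rw [Int.abs_eq_natAbs]
        exact_mod_cast h3
      · have h3 : s ∈ L := by
          rw [← hS]
          exact Submodule.subset_span hs
        exact h3
    exact LinearMap.mem_ker.1 (h2 hb)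
  choose B hB using h1
  have hbox : {q : Fin m → ℤ | ∀ i, |q i| ≤ (M : ℤ)}.Finite := by
    have h2 : {q : Fin m → ℤ | ∀ i, |q i| ≤ (M : ℤ)} ⊆
        Set.pi Set.univ fun _ => Set.Icc (-(M : ℤ)) M := by
      intro q hq i _
      exact abs_le.1 (hq i)
    exact (Set.Finite.pi' fun _ => Set.finite_Icc _ _).subset fun q hq i => h2 hq i (Set.mem_univ i)
  refine ⟨hbox.finite_subsets.toFinset.sup B, fun R hR c b hb hc => ?_⟩
  obtain ⟨b', h3, h4, h5⟩ := hB R c b hb hc
  refine ⟨b', fun i => (h3 i).trans ?_, h4, h5⟩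
  have h6 : B R ≤ hbox.finite_subsets.toFinset.sup B :=
    Finset.le_sup ((Set.Finite.mem_toFinset _).2 fun q hq => hR q hq)
  exact_mod_cast h6

section curve

variable {m : ℕ}

/-- the polynomial `t ^ K * P(h t ^ b)` -/
noncomputable def tp (K : ℕ) (h : Fin m → ℂ) (b : Fin m → ℤ) (P : MvPolynomial (Fin m) ℂ) :
    Polynomial ℂ :=
  ∑ α ∈ P.support, Polynomial.C (coeff α P * ∏ i, h i ^ α i) *
    Polynomial.X ^ ((K : ℤ) + ∑ i, (α i : ℤ) * b i).toNat

theorem exp_bound {e B : ℕ} {P : MvPolynomial (Fin m) ℂ} (hP : ∀ i, P.degreeOf i ≤ e)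
    {b : Fin m → ℤ} (hb : ∀ i, |b i| ≤ (B : ℤ)) {α : Fin m →₀ ℕ} (hα : α ∈ P.support) :
    |∑ i, (α i : ℤ) * b i| ≤ ((m * e * B : ℕ) : ℤ) := by
  refine (Finset.abs_sum_le_sum_abs _ _).trans ?_
  have h1 : ∀ i ∈ (Finset.univ : Finset (Fin m)), |(α i : ℤ) * b i| ≤ (e * B : ℕ) := by
    intro i _
    rw [abs_mul]
    push_cast
    have h2 : (α i : ℤ) ≤ e := by
      exact_mod_cast (degreeOf_le_iff.1 (hP i) α hα)
    have h3 : |(α i : ℤ)| ≤ e := by
      rw [abs_of_nonneg (Int.natCast_nonneg _)]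
      exact h2
    exact mul_le_mul h3 (hb i) (abs_nonneg _) (Int.natCast_nonneg _)
  refine (Finset.sum_le_sum h1).trans ?_
  rw [Finset.sum_const, Finset.card_univ, Fintype.card_fin, nsmul_eq_mul]
  push_cast
  rw [mul_assoc]

theorem prod_zpow {t : ℂ} (ht : t ≠ 0) (b : Fin m → ℤ) (a : Fin m → ℤ) :
    ∏ i, (t ^ b i) ^ a i = t ^ ∑ i, a i * b i := by
  classical
  induction (Finset.univ : Finset (Fin m)) using Finset.induction_on with
  | empty => simp
  | insert i s hi ih =>
    rw [Finset.prod_insert hi, Finset.sum_insert hi, zpow_add₀ ht, ih, ← zpow_mul, mul_comm (b i)]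

theorem tp_eval {e B : ℕ} {P : MvPolynomial (Fin m) ℂ} (hP : ∀ i, P.degreeOf i ≤ e)
    {b : Fin m → ℤ} (hb : ∀ i, |b i| ≤ (B : ℤ)) (h : Fin m → ℂ) {t : ℂ} (ht : t ≠ 0) :
    (tp (m * e * B) h b P).eval t = t ^ (m * e * B) * eval (fun i => h i * t ^ b i) P := by
  unfold tp
  rw [Polynomial.eval_finsetSum, eval_eq', Finset.mul_sum]
  refine Finset.sum_congr rfl fun α hα => ?_
  rw [Polynomial.eval_mul, Polynomial.eval_C, Polynomial.eval_pow, Polynomial.eval_X]
  have h1 := exp_bound hP hb hα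
  have h2 : 0 ≤ ((m * e * B : ℕ) : ℤ) + ∑ i, (α i : ℤ) * b i := by
    have := neg_abs_le (∑ i, (α i : ℤ) * b i)
    linarith
  have h3 : t ^ (((m * e * B : ℕ) : ℤ) + ∑ i, (α i : ℤ) * b i).toNat
      = t ^ (m * e * B) * t ^ ∑ i, (α i : ℤ) * b i := by
    rw [← zpow_natCast, Int.toNat_of_nonneg h2, zpow_add₀ ht, zpow_natCast]
  rw [h3, ← prod_zpow ht b fun i => (α i : ℤ)]
  simp only [mul_pow, Finset.prod_mul_distrib, zpow_natCast]
  ring

theorem tp_deg {e B : ℕ} {P : MvPolynomial (Fin m) ℂ} (hP : ∀ i, P.degreeOf i ≤ e)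
    {b : Fin m → ℤ} (hb : ∀ i, |b i| ≤ (B : ℤ)) (h : Fin m → ℂ) :
    (tp (m * e * B) h b P).natDegree ≤ 2 * (m * e * B) := by
  unfold tp
  refine Polynomial.natDegree_sum_le_of_forall_le _ _ fun α hα => ?_
  refine (Polynomial.natDegree_C_mul_X_pow_le _ _).trans ?_
  have h1 := exp_bound hP hb hα
  have h2 := le_abs_self (∑ i, (α i : ℤ) * b i)
  rw [Int.toNat_le]
  push_cast at *
  linarith

/-- The curve `t ↦ P(h t ^ b)` in the hypersurface `F = 0`. -/
theorem gm_of {n d e B : ℕ} {F : MvPolynomial (Fin (n + 1)) ℂ} (hF : F.IsHomogeneous d)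
    (P : Fin (n + 1) → MvPolynomial (Fin m) ℂ) (hP : ∀ j i, (P j).degreeOf i ≤ e)
    (h : Fin m → ℂ) (b : Fin m → ℤ) (hb : ∀ i, |b i| ≤ (B : ℤ))
    (hz : ∀ t : ℂ, t ≠ 0 → eval (fun j => eval (fun i => h i * t ^ b i) (P j)) F = 0)
    (hnc : ∃ j l, (∑ i, eval h (pderiv i (P j)) * (h i * b i)) * eval h (P l)
      - eval h (P j) * (∑ i, eval h (pderiv i (P l)) * (h i * b i)) ≠ 0) :
    GmBdd (Ideal.span {F}) 1 (2 * (m * e * B)) fun j => tp (m * e * B) h b (P j) := by
  refine ⟨fun j => tp_deg (hP j) hb h, ?_, ⟨1, 0, one_ne_zero, by simp⟩, ?_⟩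
  · have h1 : aeval (fun j => tp (m * e * B) h b (P j)) F = 0 := by
      apply Polynomial.eq_zero_of_infinite_isRoot
      have h2 : {t : ℂ | t ≠ 0} ⊆
          {t | Polynomial.IsRoot (aeval (fun j => tp (m * e * B) h b (P j)) F) t} := by
        intro t ht
        change Polynomial.eval t _ = 0
        have h3 : Polynomial.eval t (aeval (fun j => tp (m * e * B) h b (P j)) F)
            = eval (fun j => (tp (m * e * B) h b (P j)).eval t) F := by
          rw [aeval_def, ← Polynomial.coe_evalRingHom, hom_eval₂]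
          rw [eval, coe_eval₂Hom]
          congr 1
          ext x
          simp
        rw [h3]
        have h4 : (fun j => (tp (m * e * B) h b (P j)).eval t)
            = fun j => t ^ (m * e * B) * eval (fun i => h i * t ^ b i) (P j) :=
          funext fun j => tp_eval (hP j) hb h ht
        rw [h4, eval_eq']
        have h5 : ∀ α ∈ F.support, coeff α F * ∏ j, (t ^ (m * e * B) *
            eval (fun i => h i * t ^ b i) (P j)) ^ α j = (t ^ (m * e * B)) ^ d *
            (coeff α F * ∏ j, (eval (fun i => h i * t ^ b i) (P j)) ^ α j) := by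
          intro α hα
          simp only [mul_pow, Finset.prod_mul_distrib]
          rw [Finset.prod_pow_eq_pow_sum]
          have h6 : ∑ j, α j = d := by
            rw [← Finsupp.degree_eq_sum]
            have := hF (mem_support_iff.1 hα)
            rwa [Finsupp.degree_eq_weight_one]
          rw [h6]
          ring
        rw [Finset.sum_congr rfl h5, ← Finset.mul_sum, ← eval_eq', hz t ht, mul_zero]
      refine Set.Infinite.mono h2 ?_
      have h3 : {t : ℂ | t ≠ 0} = ({0} : Set ℂ)ᶜ := by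
        ext t
        simp
      rw [h3]
      exact Set.Finite.infinite_compl (Set.finite_singleton 0)
    intro G hG _
    have h2 : Ideal.span {F} ≤ RingHom.ker
        (aeval (fun j => tp (m * e * B) h b (P j)) : MvPolynomial (Fin (n + 1)) ℂ →ₐ[ℂ] _) := by
      rw [Ideal.span_le, Set.singleton_subset_iff]
      exact h1
    exact h2 hG
  · obtain ⟨j, l, hjl⟩ := hnc
    by_contra hcon
    push Not at hcon
    apply hjl
    -- the derivative at `1`
    have hv : ∀ i, HasDerivAt (fun t : ℂ => h i * t ^ b i) (h i * b i) 1 := by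
      intro i
      have h3 := (hasDerivAt_zpow (b i) (1 : ℂ) (Or.inl one_ne_zero)).const_mul (h i)
      simpa using h3
    have hd : ∀ p : MvPolynomial (Fin m) ℂ, HasDerivAt (fun t : ℂ => eval (fun i => h i * t ^ b i) p)
        (∑ i, eval h (pderiv i p) * (h i * b i)) 1 := by
      intro p
      have h3 := Pool.Agent.H159R3.Exp.hasDerivAt_eval (fun t : ℂ => fun i => h i * t ^ b i)
        (fun i => h i * b i) 1 hv p
      have h4 : (fun i => h i * (1 : ℂ) ^ b i) = h := funext fun i => by rw [one_zpow, mul_one]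
      simpa only [h4] using h3
    have h5 : HasDerivAt (fun t : ℂ => eval (fun i => h i * t ^ b i) (P j) * eval h (P l)
        - eval h (P j) * eval (fun i => h i * t ^ b i) (P l))
        ((∑ i, eval h (pderiv i (P j)) * (h i * b i)) * eval h (P l)
      - eval h (P j) * (∑ i, eval h (pderiv i (P l)) * (h i * b i))) 1 :=
      ((hd (P j)).mul_const _).sub ((hd (P l)).const_mul _)
    have h6 : (fun t : ℂ => eval (fun i => h i * t ^ b i) (P j) * eval h (P l)
        - eval h (P j) * eval (fun i => h i * t ^ b i) (P l)) =ᶠ[nhds 1] fun _ => 0 := by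
      filter_upwards [isOpen_ne.mem_nhds (one_ne_zero : (1 : ℂ) ≠ 0)] with t ht
      have h7 := hcon t 1 j l
      rw [tp_eval (hP j) hb h ht, tp_eval (hP l) hb h ht, tp_eval (hP j) hb h one_ne_zero,
        tp_eval (hP l) hb h one_ne_zero, one_pow, one_mul, one_mul] at h7
      have h4 : (fun i => h i * (1 : ℂ) ^ b i) = h := funext fun i => by rw [one_zpow, mul_one]
      rw [h4] at h7
      have h8 : t ^ (m * e * B) ≠ 0 := pow_ne_zero _ ht
      have h9 : t ^ (m * e * B) * (eval (fun i => h i * t ^ b i) (P j) * eval h (P l)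
        - eval h (P j) * eval (fun i => h i * t ^ b i) (P l)) = 0 := by
        linear_combination h7
      exact (mul_eq_zero.1 h9).resolve_left h8
    exact h5.unique ((hasDerivAt_const (1 : ℂ) (0 : ℂ)).congr_of_eventuallyEq h6)

end curve

end Pool.Agent.H60K
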