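import Mathlib
import Pool.Agent.N131.SU.Frob

/-!
The field of sequences of meromorphic functions modulo the ultrafilter, and the subfield of the
small sequences (as in `N131/SV/Kf`, for the index set of `N131/SU`).
-/

set_option autoImplicit false

namespace Pool.Agent.H60K

open MeasureTheory Set Filter Topology Metric Real ValueDistribution MeromorphicOn Function
open Asymptotics
open Pool.Agent.TH143.EL (codis_ev codis_of_ev mero_id mero_ne mero_an codis_open codis_pre codis_ne)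
open Pool.Agent.N131.SU

/-- the ring of sequences of meromorphic functions -/
noncomputable def mring : Subring (Germ cod ℂ) where
  carrier := {x | ∃ a : Pt → ℂ, Mero a ∧ (a : Germ cod ℂ) = x}
  mul_mem' := by
    rintro _ _ ⟨a, ha, rfl⟩ ⟨b, hb, rfl⟩
    exact ⟨_, ha.mul hb, rfl⟩
  one_mem' := ⟨fun _ => 1, mero_const fun _ => 1, rfl⟩
  add_mem' := by
    rintro _ _ ⟨a, ha, rfl⟩ ⟨b, hb, rfl⟩
    exact ⟨_, ha.add hb, rfl⟩
  zero_mem' := ⟨fun _ => 0, mero_const fun _ => 0, rfl⟩
  neg_mem' := by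
    rintro _ ⟨a, ha, rfl⟩
    exact ⟨_, ha.neg, rfl⟩

/-- the field of sequences of meromorphic functions -/
def MF : Type := mring

noncomputable instance : CommRing MF := inferInstanceAs (CommRing mring)

/-- the class of a sequence -/
noncomputable def mf (a : Pt → ℂ) (ha : Mero a) : MF := ⟨(a : Germ cod ℂ), a, ha, rfl⟩

theorem mf_surj (x : MF) : ∃ (a : Pt → ℂ) (ha : Mero a), mf a ha = x := by
  obtain ⟨x, a, ha, rfl⟩ := x
  exact ⟨a, ha, rfl⟩

theorem mf_eq {a b : Pt → ℂ} {ha : Mero a} {hb : Mero b} :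
    mf a ha = mf b hb ↔ ∀ᶠ p in cod, a p = b p :=
  ⟨fun h => Germ.coe_eq.1 (congrArg Subtype.val h), fun h => Subtype.ext (Germ.coe_eq.2 h)⟩

theorem mf_add {a b : Pt → ℂ} (ha : Mero a) (hb : Mero b) :
    mf a ha + mf b hb = mf (fun p => a p + b p) (ha.add hb) := rfl

theorem mf_mul {a b : Pt → ℂ} (ha : Mero a) (hb : Mero b) :
    mf a ha * mf b hb = mf (fun p => a p * b p) (ha.mul hb) := rfl

theorem mf_neg {a : Pt → ℂ} (ha : Mero a) : - mf a ha = mf (fun p => - a p) ha.neg := rfl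

theorem mf_one : (1 : MF) = mf (fun _ => 1) (mero_const fun _ => 1) := rfl

theorem mf_zero : (0 : MF) = mf (fun _ => 0) (mero_const fun _ => 0) := rfl

theorem mf_eq_zero {a : Pt → ℂ} {ha : Mero a} : mf a ha = 0 ↔ ∀ᶠ p in cod, a p = 0 := by
  rw [mf_zero, mf_eq]

theorem mf_ne_zero {a : Pt → ℂ} {ha : Mero a} (h : mf a ha ≠ 0) : NZs a := by
  rcases nz_or ha with h1 | h1
  · exact h1
  · exact absurd (mf_eq_zero.2 h1) h

theorem ne_of_mf {a : Pt → ℂ} {ha : Mero a} (h : mf a ha ≠ 0) : ∀ᶠ p in cod, a p ≠ 0 :=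
  (mf_ne_zero h).ne ha

noncomputable instance : Inv MF :=
  ⟨fun x => mf (fun p => ((mf_surj x).choose p)⁻¹) (mf_surj x).choose_spec.choose.inv⟩

theorem mf_inv {a : Pt → ℂ} (ha : Mero a) : (mf a ha)⁻¹ = mf (fun p => (a p)⁻¹) ha.inv := by
  have h1 := (mf_surj (mf a ha)).choose_spec.choose_spec
  rw [mf_eq] at h1
  exact mf_eq.2 (h1.mono fun p hp => by simp only [hp])

noncomputable instance : Field MF :=
  { (inferInstance : CommRing MF), (inferInstance : Inv MF) with
    exists_pair_ne := ⟨0, 1, fun h => by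
      rw [mf_zero, mf_one, mf_eq] at h
      obtain ⟨p, hp⟩ := h.exists
      exact zero_ne_one hp⟩
    mul_inv_cancel := by
      intro x hx
      obtain ⟨a, ha, rfl⟩ := mf_surj x
      rw [mf_inv, mf_mul, mf_one, mf_eq]
      exact (ne_of_mf hx).mono fun p hp => mul_inv_cancel₀ hp
    inv_zero := by
      rw [mf_zero, mf_inv, mf_eq]
      exact Eventually.of_forall fun p => inv_zero
    nnqsmul := _
    nnqsmul_def := fun _ _ => rfl
    qsmul := _
    qsmul_def := fun _ _ => rfl }

theorem mf_div {a b : Pt → ℂ} (ha : Mero a) (hb : Mero b) :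
    mf a ha / mf b hb = mf (fun p => a p / b p) (ha.div hb) := by
  rw [div_eq_mul_inv, mf_inv, mf_mul, mf_eq]
  exact Eventually.of_forall fun p => (div_eq_mul_inv _ _).symm

/-- the constants -/
noncomputable def cm : ℂ →+* MF where
  toFun c := mf (fun _ => c) (mero_const fun _ => c)
  map_one' := rfl
  map_zero' := rfl
  map_add' _ _ := rfl
  map_mul' _ _ := rfl

noncomputable instance : Algebra ℂ MF := cm.toAlgebra

theorem algebraMap_mf (c : ℂ) : algebraMap ℂ MF c = mf (fun _ => c) (mero_const fun _ => c) := rfl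

instance : CharZero MF := charZero_of_injective_algebraMap (algebraMap ℂ MF).injective

theorem mf_sum {ι : Type} (s : Finset ι) {a : ι → Pt → ℂ} (ha : ∀ i, Mero (a i)) :
    ∑ i ∈ s, mf (a i) (ha i) = mf (fun p => ∑ i ∈ s, a i p) (mero_sum s fun i _ => ha i) := by
  classical
  induction s using Finset.induction_on with
  | empty => simp only [Finset.sum_empty]; rfl
  | insert i s hi ih =>
    rw [Finset.sum_insert hi, ih, mf_add, mf_eq]
    exact Eventually.of_forall fun p => by simp only [Finset.sum_insert hi]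

theorem mero_prod {ι : Type} (s : Finset ι) {a : ι → Pt → ℂ} (ha : ∀ i, Mero (a i)) :
    Mero fun p => ∏ i ∈ s, a i p := by
  classical
  induction s using Finset.induction_on with
  | empty => simpa using mero_const fun _ => 1
  | insert i s hi ih =>
    simp only [Finset.prod_insert hi]
    exact (ha i).mul ih

theorem mf_prod {ι : Type} (s : Finset ι) {a : ι → Pt → ℂ} (ha : ∀ i, Mero (a i)) :
    ∏ i ∈ s, mf (a i) (ha i) = mf (fun p => ∏ i ∈ s, a i p) (mero_prod s ha) := by
  classical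
  induction s using Finset.induction_on with
  | empty => simp only [Finset.prod_empty]; rfl
  | insert i s hi ih =>
    rw [Finset.prod_insert hi, ih, mf_mul, mf_eq]
    exact Eventually.of_forall fun p => by simp only [Finset.prod_insert hi]

theorem mero_pow {a : Pt → ℂ} (ha : Mero a) (n : ℕ) : Mero fun p => a p ^ n :=
  fun k z => (ha k z).pow n

theorem mf_pow {a : Pt → ℂ} (ha : Mero a) (n : ℕ) :
    mf a ha ^ n = mf (fun p => a p ^ n) (mero_pow ha n) := by
  induction n with
  | zero => rw [pow_zero, mf_one, mf_eq]; exact Eventually.of_forall fun p => (pow_zero _).symm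
  | succ n ih =>
    rw [pow_succ, ih, mf_mul, mf_eq]
    exact Eventually.of_forall fun p => (pow_succ _ _).symm

/-- the derivative -/
noncomputable def dm0 (x : MF) : MF :=
  mf (dv (mf_surj x).choose) (mf_surj x).choose_spec.choose.dv

theorem dm0_mf {a : Pt → ℂ} (ha : Mero a) : dm0 (mf a ha) = mf (dv a) ha.dv := by
  have h1 := (mf_surj (mf a ha)).choose_spec.choose_spec
  rw [mf_eq] at h1
  exact mf_eq.2 (codis_deriv h1)

/-- the derivation -/
noncomputable def DM : Derivation ℂ MF MF :=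
  Derivation.mk'
    { toFun := dm0
      map_add' := fun x y => by
        obtain ⟨a, ha, rfl⟩ := mf_surj x
        obtain ⟨b, hb, rfl⟩ := mf_surj y
        rw [mf_add, dm0_mf, dm0_mf, dm0_mf, mf_add, mf_eq]
        exact codis_deriv_add ha hb
      map_smul' := fun c x => by
        obtain ⟨a, ha, rfl⟩ := mf_surj x
        rw [Algebra.smul_def, Algebra.smul_def, algebraMap_mf, RingHom.id_apply, mf_mul, dm0_mf,
          dm0_mf, algebraMap_mf, mf_mul, mf_eq]
        filter_upwards [codis_deriv_mul (mero_const fun _ => c) ha] with p hp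
        rw [hp, dv_const (fun _ => c) p, zero_mul, zero_add] }
    (fun x y => by
      obtain ⟨a, ha, rfl⟩ := mf_surj x
      obtain ⟨b, hb, rfl⟩ := mf_surj y
      change dm0 (mf a ha * mf b hb) = mf a ha * dm0 (mf b hb) + mf b hb * dm0 (mf a ha)
      rw [mf_mul, dm0_mf, dm0_mf, dm0_mf, mf_mul, mf_mul, mf_add, mf_eq]
      filter_upwards [codis_deriv_mul ha hb] with p hp
      rw [hp]
      ring)

theorem DM_mf {a : Pt → ℂ} (ha : Mero a) : DM (mf a ha) = mf (dv a) ha.dv := dm0_mf ha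

variable {L : ℕ → Filter ℝ} {τ : ℕ × ℝ → ℝ}

/-- the field of small sequences -/
noncomputable def smf (H : Cmp L τ) : IntermediateField ℂ MF where
  carrier := {x | ∃ (a : Pt → ℂ) (ha : Mero a), Sm L τ a ∧ mf a ha = x}
  mul_mem' := by
    rintro _ _ ⟨a, ha, h1, rfl⟩ ⟨b, hb, h2, rfl⟩
    exact ⟨_, ha.mul hb, h1.mul H h2, rfl⟩
  add_mem' := by
    rintro _ _ ⟨a, ha, h1, rfl⟩ ⟨b, hb, h2, rfl⟩
    exact ⟨_, ha.add hb, h1.add H h2, rfl⟩
  algebraMap_mem' := fun c => ⟨fun _ => c, mero_const fun _ => c, sm_const H fun _ => c, rfl⟩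
  inv_mem' := by
    rintro _ ⟨a, ha, h1, rfl⟩
    exact ⟨_, ha.inv, h1.inv H, (mf_inv ha).symm⟩


variable {H : Cmp L τ}

theorem mem_smf {a : Pt → ℂ} {ha : Mero a} : mf a ha ∈ smf H ↔ Sm L τ a := by
  constructor
  · rintro ⟨b, hb, h1, h2⟩
    exact h1.congr H ha ((mf_eq.1 h2).mono fun _ h => h.symm)
  · exact fun h => ⟨a, ha, h, rfl⟩

theorem DM_smf {x : MF} (hx : x ∈ smf H) : DM x ∈ smf H := by
  obtain ⟨a, ha, rfl⟩ := mf_surj x
  rw [mem_smf] at hx
  rw [DM_mf, mem_smf]
  exact hx.deriv H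


/-- meromorphic functions with derivative zero are constant -/
theorem const_of_deriv {f : ℂ → ℂ} (hf : Meromorphic f) (h : ∀ᶠ z in codiscrete ℂ, deriv f z = 0) :
    ∃ c, ∀ᶠ z in codiscrete ℂ, f z = c := by
  have hV : {z | AnalyticAt ℂ f z ∧ deriv f z = 0} ∈ codiscrete ℂ := (mero_an hf).and h
  obtain ⟨x, hx⟩ := codis_ne hV
  refine ⟨f x, ?_⟩
  filter_upwards [hV] with z hz
  exact (codis_open hV).is_const_of_deriv_eq_zero (codis_pre hV)
    (fun w hw => hw.1.differentiableAt.differentiableWithinAt) (fun w hw => hw.2) hz hx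

/-- constants are small -/
theorem smf_of_DM {x : MF} (hx : DM x = 0) : x ∈ smf H := by
  obtain ⟨a, ha, rfl⟩ := mf_surj x
  rw [DM_mf, mf_eq_zero, ev_cod] at hx
  have h1 : ∀ k, ∃ c : ℂ, (∀ᶠ z in codiscrete ℂ, dv a (k, z) = 0) →
      ∀ᶠ z in codiscrete ℂ, a (k, z) = c := by
    intro k
    by_cases hk : ∀ᶠ z in codiscrete ℂ, dv a (k, z) = 0
    · obtain ⟨c, hc⟩ := const_of_deriv (ha k) hk
      exact ⟨c, fun _ => hc⟩
    · exact ⟨0, fun h => absurd h hk⟩
  choose c hc using h1
  rw [mem_smf]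
  refine (sm_const H c).congr H ha ?_
  rw [ev_cod]
  exact hx.mono fun k hk => hc k hk

/-- roots of small elements are small -/
theorem smf_of_pow {x : MF} {n : ℕ} (hn : 0 < n) (hx : x ^ n ∈ smf H) : x ∈ smf H := by
  obtain ⟨a, ha, rfl⟩ := mf_surj x
  rw [mf_pow, mem_smf] at hx
  rw [mem_smf]
  refine ⟨ha, ?_⟩
  refine H.o_of_le (t := ch fun p => a p ^ n) (fun k r hr => ⟨ch_nonneg _ k hr, ?_⟩) hx.2
  have h3 := characteristic_pow_top (n := n) (ha k)
  have h4 : ch (fun p => a p ^ n) (k, r) = n * ch a (k, r) := by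
    change characteristic (sl a k ^ n) ⊤ r = n * characteristic (sl a k) ⊤ r
    rw [h3]
    simp
  rw [h4]
  have h5 : (1 : ℝ) ≤ n := by exact_mod_cast hn
  nlinarith [ch_nonneg a k hr]

end Pool.Agent.H60K
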