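import Pool.Agent.H60K.Ram
import Pool.Agent.V1153.GH.Cst

/-!
Entire curves in general hypersurfaces given by polynomials in the variable and in high powers of
entire functions.
-/

set_option autoImplicit false

namespace Pool.Agent.H60K

open MvPolynomial Pool.Agent.V1153.UG
open scoped Topology

/-- the pull-back of the curve by the exponential function -/
theorem const_main {n m d e N B : ℕ}
    (hB : ∀ (R : Set (Fin (m + 1) → ℤ)), (∀ q ∈ R, ∀ i, |q i| ≤ ((d * e : ℕ) : ℤ)) →
      ∀ (c : Fin (m + 1) → ℂ) (b : Fin (m + 1) → ℤ), (∀ q ∈ R, ∑ i, q i * b i = 0) →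
        ∑ i, c i * (b i : ℂ) ≠ 0 →
        ∃ b' : Fin (m + 1) → ℤ, (∀ i, |b' i| ≤ (B : ℤ)) ∧ (∀ q ∈ R, ∑ i, q i * b' i = 0) ∧
          ∑ i, c i * (b' i : ℂ) ≠ 0)
    {F : MvPolynomial (Fin (n + 1)) ℂ} (hF : F.IsHomogeneous d)
    (hno : ∀ T, ¬ GmBdd (Ideal.span {F}) 1 (2 * ((m + 1) * e * B)) T)
    (hN : ((d * e + 1) ^ (m + 1)) ^ 2 ≤ N)
    (g : ℂ → Fin (n + 1) → ℂ) (hg : Differentiable ℂ g) (hg0 : ∀ z, g z ≠ 0)
    (hgF : ∀ z, eval (g z) F = 0) (U : Set ℂ) (hU : IsOpen U) (hne : U.Nonempty) (u : ℂ → ℂ)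
    (hu : ∀ z ∈ U, u z ≠ 0) (k : Fin m → ℂ → ℂ) (hk : ∀ i, Differentiable ℂ (k i))
    (P : Fin (n + 1) → MvPolynomial (Fin (m + 1)) ℂ) (hP : ∀ j i, (P j).degreeOf i ≤ e)
    (hgP : ∀ z ∈ U, ∀ j, u z * g z j
      = eval (Fin.cons z fun i => k i z ^ N : Fin (m + 1) → ℂ) (P j)) :
    ∀ z, ∃ c : ℂ, g z = c • g 0 := by
  have hN0 : 0 < N := lt_of_lt_of_le (by positivity) hN
  have hgj : ∀ j, Differentiable ℂ fun z => g z j := fun j => differentiable_pi.1 hg j
  -- the functions on the cover
  let K : Fin (m + 1) → ℂ → ℂ := Fin.cons (fun w => Complex.exp (w / N))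
    fun i w => k i (Complex.exp w)
  have hK : ∀ i, Differentiable ℂ (K i) := by
    intro i
    refine Fin.cases ?_ (fun i => ?_) i
    · exact Complex.differentiable_exp.comp (differentiable_id.div_const _)
    · exact (hk i).comp Complex.differentiable_exp
  have hKN : ∀ w, (fun i => K i w ^ N)
      = (Fin.cons (Complex.exp w) fun i => k i (Complex.exp w) ^ N : Fin (m + 1) → ℂ) := by
    intro w
    funext i
    refine Fin.cases ?_ (fun i => ?_) i
    · simp only [K, Fin.cons_zero]
      rw [← Complex.exp_nat_mul]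
      congr 1
      have : (N : ℂ) ≠ 0 := by exact_mod_cast hN0.ne'
      field_simp
    · rfl
  set V : Set ℂ := Complex.exp ⁻¹' U with hVdef
  have hV : IsOpen V := hU.preimage Complex.continuous_exp
  have hVne : V.Nonempty := by
    have h1 : (U ∩ {z | z ≠ 0}).Nonempty := by
      by_contra hcon
      rw [Set.not_nonempty_iff_eq_empty] at hcon
      have h2 : U ⊆ {0} := by
        intro z hz
        by_contra hz0
        have : z ∈ U ∩ {z | z ≠ 0} := ⟨hz, hz0⟩
        rw [hcon] at this
        exact this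
      have h3 : U.Finite := (Set.finite_singleton 0).subset h2
      obtain ⟨z1, hz1⟩ := hne
      exact (infinite_of_mem_nhds z1 (hU.mem_nhds hz1)) h3
    obtain ⟨z, hz, hz0⟩ := h1
    exact ⟨Complex.log z, by rw [hVdef, Set.mem_preimage, Complex.exp_log hz0]; exact hz⟩
  have hpd : ∀ p : MvPolynomial (Fin (m + 1)) ℂ,
      Differentiable ℂ fun w => eval (fun i => K i w ^ N) p := by
    intro p w
    exact (Pool.Agent.H159R3.Exp.hasDerivAt_eval (fun z => fun i => K i z ^ N)
      (fun i => deriv (fun z => K i z ^ N) w) w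
      (fun i => (((hK i).pow N) w).hasDerivAt) p).differentiableAt
  have hrel : ∀ w ∈ V, ∀ j, u (Complex.exp w) * g (Complex.exp w) j
      = eval (fun i => K i w ^ N) (P j) := by
    intro w hw j
    rw [hKN]
    exact hgP _ hw j
  have hz : ∀ w, eval (fun j => eval (fun i => K i w ^ N) (P j)) F = 0 := by
    have h1 : Differentiable ℂ fun w => eval (fun i => K i w ^ N) (bind₁ P F) := hpd _
    have h2 : ∀ w, eval (fun i => K i w ^ N) (bind₁ P F)
        = eval (fun j => eval (fun i => K i w ^ N) (P j)) F := by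
      intro w
      rw [eval, eval₂Hom_bind₁]
      rfl
    intro w
    rw [← h2 w]
    refine eq_of_open h1 (differentiable_const (0 : ℂ)) hV hVne (fun w hw => ?_) w
    rw [h2 w]
    have h3 : (fun j => eval (fun i => K i w ^ N) (P j))
        = fun j => u (Complex.exp w) * g (Complex.exp w) j := funext fun j => (hrel w hw j).symm
    rw [h3, eval_eq']
    have h5 : ∀ α ∈ F.support, coeff α F * ∏ j, (u (Complex.exp w) *
        g (Complex.exp w) j) ^ α j = (u (Complex.exp w)) ^ d *
        (coeff α F * ∏ j, (g (Complex.exp w) j) ^ α j) := by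
      intro α hα
      simp only [mul_pow, Finset.prod_mul_distrib]
      rw [Finset.prod_pow_eq_pow_sum]
      have h6 : ∑ j, α j = d := by
        rw [← Finsupp.degree_eq_sum]
        have := hF (mem_support_iff.1 hα)
        rwa [Finsupp.degree_eq_weight_one]
      rw [h6]
      ring
    rw [Finset.sum_congr rfl h5, ← Finset.mul_sum, ← eval_eq', hgF, mul_zero]
  have hconst := const_of_wron (fun j w => g (Complex.exp w) j)
    (fun j w => eval (fun i => K i w ^ N) (P j))
    (fun j => (hgj j).comp Complex.differentiable_exp)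
    (fun w => by
      by_contra hcon
      push Not at hcon
      exact hg0 _ (funext hcon))
    (fun j => hpd _) V hV hVne (fun w => u (Complex.exp w)) (fun w hw => hu _ hw) hrel
    (ramified_core hB hF hno hN K hK P hP hz)
  -- back to the curve
  have h1 : ∀ j l, ∀ z, g z j * g 1 l = g z l * g 1 j := by
    intro j l
    refine eq_of_open ((hgj j).mul_const _) ((hgj l).mul_const _)
      (isOpen_ne (x := (0 : ℂ))) ⟨1, one_ne_zero⟩ fun z hz0 => ?_
    obtain ⟨c, hc⟩ := hconst (Complex.log z)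
    simp only [Complex.exp_log hz0, Complex.exp_zero] at hc
    rw [hc j, hc l]
    ring
  intro z
  apply Pool.Agent.V1153.GH.prop_of hg0
  rintro ⟨z', w', j, l, hne'⟩
  apply hne'
  obtain ⟨i, hi⟩ : ∃ i, g 1 i ≠ 0 := by
    by_contra hcon
    push Not at hcon
    exact hg0 1 (funext hcon)
  apply mul_right_cancel₀ (mul_ne_zero hi hi)
  linear_combination (g w' l * g 1 i) * h1 j i z' + (g z' i * g 1 j) * h1 l i w'
    - (g w' j * g 1 i) * h1 l i z' - (g z' i * g 1 l) * h1 j i w'

end Pool.Agent.H60K
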