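import Pool.Agent.H60K.Spec


/-!
Entire curves given by polynomials in high powers of entire functions in general hypersurfaces.
-/

set_option autoImplicit false

namespace Pool.Agent.H60K

open MvPolynomial Pool.Agent.V1153.UG
open scoped Topology

variable {n m : ℕ}

theorem ramified_core {d e N B : ℕ}
    (hB : ∀ (R : Set (Fin m → ℤ)), (∀ q ∈ R, ∀ i, |q i| ≤ ((d * e : ℕ) : ℤ)) →
      ∀ (c : Fin m → ℂ) (b : Fin m → ℤ), (∀ q ∈ R, ∑ i, q i * b i = 0) →
        ∑ i, c i * (b i : ℂ) ≠ 0 →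
        ∃ b' : Fin m → ℤ, (∀ i, |b' i| ≤ (B : ℤ)) ∧ (∀ q ∈ R, ∑ i, q i * b' i = 0) ∧
          ∑ i, c i * (b' i : ℂ) ≠ 0)
    {F : MvPolynomial (Fin (n + 1)) ℂ} (hF : F.IsHomogeneous d)
    (hno : ∀ T, ¬ GmBdd (Ideal.span {F}) 1 (2 * (m * e * B)) T) (hN : ((d * e + 1) ^ m) ^ 2 ≤ N)
    (k : Fin m → ℂ → ℂ) (hk : ∀ i, Differentiable ℂ (k i))
    (P : Fin (n + 1) → MvPolynomial (Fin m) ℂ) (hP : ∀ j i, (P j).degreeOf i ≤ e)
    (hz : ∀ z, eval (fun j => eval (fun i => k i z ^ N) (P j)) F = 0) (j l : Fin (n + 1)) (z : ℂ) :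
    deriv (fun z => eval (fun i => k i z ^ N) (P j)) z * eval (fun i => k i z ^ N) (P l)
      - eval (fun i => k i z ^ N) (P j) * deriv (fun z => eval (fun i => k i z ^ N) (P l)) z = 0 := by
  classical
  have hN0 : 0 < N := lt_of_lt_of_le (by positivity) hN
  by_contra hW
  -- the functions
  have hkN : ∀ i, Differentiable ℂ fun z => k i z ^ N := fun i => (hk i).pow N
  have hpd : ∀ p : MvPolynomial (Fin m) ℂ, Differentiable ℂ fun z => eval (fun i => k i z ^ N) p := by
    intro p z1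
    exact (Pool.Agent.H159R3.Exp.hasDerivAt_eval (fun z => fun i => k i z ^ N)
      (fun i => deriv (fun z => k i z ^ N) z1) z1 (fun i => (hkN i z1).hasDerivAt) p).differentiableAt
  have hdd : ∀ f : ℂ → ℂ, Differentiable ℂ f → Differentiable ℂ (deriv f) := fun f hf =>
    (hf.contDiff (n := 2)).differentiable_deriv_two
  let W : ℂ → ℂ := fun z => deriv (fun z => eval (fun i => k i z ^ N) (P j)) z *
    eval (fun i => k i z ^ N) (P l) - eval (fun i => k i z ^ N) (P j) *
    deriv (fun z => eval (fun i => k i z ^ N) (P l)) z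
  have hWd : Differentiable ℂ W :=
    ((hdd _ (hpd (P j))).mul (hpd (P l))).sub ((hpd (P j)).mul (hdd _ (hpd (P l))))
  obtain ⟨z0, hz0⟩ := exists_good (ι := Option (Fin m)) (fun o => o.elim W k)
    (fun o => by cases o with
      | none => exact hWd
      | some i => exact hk i)
  have hW0 : W z0 ≠ 0 := hz0 none ⟨z, hW⟩
  have hk0 : ∀ i, (∃ z, k i z ≠ 0) → k i z0 ≠ 0 := fun i => hz0 (some i)
  set h0 : Fin m → ℂ := fun i => k i z0 ^ N with hh0
  set u : Fin m → ℂ := fun i => deriv (k i) z0 / k i z0 with hu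
  -- the derivatives
  have hder : ∀ i, deriv (fun z => k i z ^ N) z0 = h0 i * (N * u i) := by
    intro i
    rw [deriv_fun_pow (hk i z0) N]
    by_cases hki : ∃ z, k i z ≠ 0
    · have h1 := hk0 i hki
      simp only [hh0, hu]
      rw [← Nat.succ_pred_eq_of_pos hN0, Nat.succ_sub_one, pow_succ]
      field_simp
    · push Not at hki
      have h1 : deriv (k i) z0 = 0 := by
        have : k i = fun _ => 0 := funext hki
        rw [this, deriv_const]
      simp only [hu]
      rw [h1, zero_div, mul_zero, mul_zero, mul_zero]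
  have hpder : ∀ p : MvPolynomial (Fin m) ℂ, deriv (fun z => eval (fun i => k i z ^ N) p) z0
      = ∑ i, eval h0 (pderiv i p) * (h0 i * (N * u i)) := by
    intro p
    have h1 := Pool.Agent.H159R3.Exp.hasDerivAt_eval (fun z => fun i => k i z ^ N)
      (fun i => h0 i * (N * u i)) z0 (fun i => by
        rw [← hder i]
        exact (hkN i z0).hasDerivAt) p
    exact h1.deriv
  set c : Fin m → ℂ := fun i => eval h0 (pderiv i (P j)) * h0 i * eval h0 (P l)
    - eval h0 (P j) * (eval h0 (pderiv i (P l)) * h0 i) with hc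
  have hcu : ∑ i, c i * u i ≠ 0 := by
    intro h1
    apply hW0
    have h2 : W z0 = N * ∑ i, c i * u i := by
      simp only [W]
      rw [hpder, hpder, Finset.sum_mul, Finset.mul_sum, Finset.mul_sum, ← Finset.sum_sub_distrib]
      refine Finset.sum_congr rfl fun i _ => ?_
      simp only [hc]
      change _ * eval h0 (P l) - eval h0 (P j) * _ = _
      ring
    rw [h2, h1, mul_zero]
  obtain ⟨b₀, hb₀, hcb₀⟩ := Pool.Agent.H159R3.Exp.exists_b u c hcu
  obtain ⟨b, hbB, hbR, hcb⟩ := hB {q | (∀ i, |q i| ≤ ((d * e : ℕ) : ℤ)) ∧ ∑ i, (q i : ℂ) * u i = 0}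
    (fun q hq => hq.1) c b₀ (fun q hq => hb₀ q hq.2) hcb₀
  -- the relation
  have hG : ∀ i, (bind₁ P F).degreeOf i ≤ d * e := fun i => degreeOf_bind hF P i fun j => hP j i
  have hGk : ∀ z, eval (fun i => k i z ^ N) (bind₁ P F) = 0 := by
    intro z
    rw [eval, eval₂Hom_bind₁]
    exact hz z
  have hS : ((bind₁ P F).support.card - 1) ^ 2 ≤ N :=
    le_trans (Nat.pow_le_pow_left ((Nat.sub_le _ _).trans (card_support_le _ hG)) 2) hN
  have hrel : ∀ t : ℂ, t ≠ 0 → eval (fun j => eval (fun i => h0 i * t ^ b i) (P j)) F = 0 := by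
    intro t ht
    have h1 := spec_pow hN0 (bind₁ P F) hG hS k hk hGk z0 b
      (fun q hq1 hq2 => hbR q ⟨hq1, hq2⟩) t ht
    rw [eval, eval₂Hom_bind₁] at h1
    exact h1
  refine hno _ (gm_of hF P hP h0 b hbB hrel ⟨j, l, ?_⟩)
  intro h1
  apply hcb
  rw [← h1, Finset.sum_mul, Finset.mul_sum, ← Finset.sum_sub_distrib]
  refine Finset.sum_congr rfl fun i _ => ?_
  simp only [hc]
  ring

end Pool.Agent.H60K
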