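import Mathlib
import Pool.Agent.H60K.Kf

/-!
Small logarithmic derivatives, the characteristic of a curve, failure of uniform bounds.
-/

set_option autoImplicit false

namespace Pool.Agent.H60K

open MeasureTheory Set Filter Topology Metric Real ValueDistribution MeromorphicOn Function
open Asymptotics
open Pool.Agent.TH143.EL (codis_ev codis_of_ev mero_id mero_ne mero_an)
open Pool.Agent.N131.SU
open Pool.Agent.N131.SR (Tf Tf_le Big exists_big Nb Nb_nonneg NZ)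

/-- entire functions -/
def Ent (a : Pt → ℂ) : Prop := ∀ k, Differentiable ℂ (sl a k)

theorem Ent.mero {a : Pt → ℂ} (h : Ent a) : Mero a := fun k z =>
  ((h k).analyticAt z).meromorphicAt

theorem diff_ne {a : ℂ → ℂ} (ha : Differentiable ℂ a) (h : ∃ z, a z ≠ 0) :
    ∀ᶠ z in codiscrete ℂ, a z ≠ 0 := by
  obtain ⟨z, hz⟩ := h
  have hm : Meromorphic a := fun z => (ha.analyticAt z).meromorphicAt
  rcases Pool.Agent.N131.SR.nz_or hm with h1 | h1
  · exact h1.ne hm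
  · exfalso
    have h2 : ∀ᶠ w in 𝓝[≠] z, a w ≠ 0 :=
      (ha.continuous.continuousAt.eventually_ne hz).filter_mono nhdsWithin_le_nhds
    obtain ⟨w, h3, h4⟩ := ((codis_ev h1 z).and h2).exists
    exact h4 h3

theorem ent_ne {a : Pt → ℂ} (ha : Ent a) (h : ∀ᶠ k in (U : Filter ℕ), ∃ z, a (k, z) ≠ 0) :
    ∀ᶠ z in cod, a z ≠ 0 := by
  rw [ev_cod]
  exact h.mono fun k hk => diff_ne (ha k) hk

theorem ev_index {N : ℕ} {P : Fin (N + 1) → ℕ → Prop} (h : ∀ k, ∃ j, P j k) :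
    ∃ j, ∀ᶠ k in (U : Filter ℕ), P j k := by
  have h1 : ∀ᶠ k in (U : Filter ℕ), ∃ j, P j k := Eventually.of_forall h
  have h2 : ∀ᶠ k in (U : Filter ℕ), k ∈ ⋃ j ∈ (Set.univ : Set (Fin (N + 1))), {k | P j k} := by
    filter_upwards [h1] with k hk
    obtain ⟨j, hj⟩ := hk
    exact Set.mem_biUnion (Set.mem_univ j) hj
  obtain ⟨j, -, hj⟩ := (Ultrafilter.finite_biUnion_mem_iff Set.finite_univ).1 h2
  exact ⟨j, hj⟩

variable {L : ℕ → Filter ℝ} {τ : ℕ × ℝ → ℝ}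

theorem sml (H : Cmp L τ) {x y : Pt → ℂ} (hx : Ent x) (hy : Ent y) (hx0 : ∀ k, ∃ z, x (k, z) ≠ 0)
    (hy0 : ∀ k, ∃ z, y (k, z) ≠ 0) (ht : OT L τ fun p => x p / y p)
    (h1 : Nbs x =o[Lf L] τ) (h2 : Nbs y =o[Lf L] τ) : Sm L τ (ldv fun p => x p / y p) := by
  refine sm_of_poles H (gg_ld H ht) hx hy hx0 hy0 ?_ h1 h2
  refine Eventually.of_forall fun k z hxz hyz => ?_
  have hA : AnalyticAt ℂ (fun z => x (k, z) / y (k, z)) z :=
    ((hx k).analyticAt z).div ((hy k).analyticAt z) hyz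
  have hB : AnalyticAt ℂ (sl (ldv fun p => x p / y p) k) z :=
    hA.deriv.div hA (div_ne_zero hxz hyz)
  exact hB.meromorphicOrderAt_nonneg

/-- the logarithmic derivative of a quotient -/
theorem ld_div {a b : MF} (ha : a ≠ 0) (hb : b ≠ 0) :
    DM (a / b) / (a / b) = DM a / a - DM b / b := by
  have h1 : a = (a / b) * b := by field_simp
  have h2 : DM a = (a / b) * DM b + b * DM (a / b) := by
    conv_lhs => rw [h1]
    rw [DM.leibniz, smul_eq_mul, smul_eq_mul]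
  have h3 : DM (a / b) = (DM a - (a / b) * DM b) / b := by
    rw [h2]
    field_simp
    ring
  rw [h3]
  field_simp

theorem ld_mul {a b : MF} (ha : a ≠ 0) (hb : b ≠ 0) :
    DM (a * b) / (a * b) = DM a / a + DM b / b := by
  rw [DM.leibniz, smul_eq_mul, smul_eq_mul]
  field_simp
  ring

theorem ld_pow {a : MF} (ha : a ≠ 0) (n : ℕ) : DM (a ^ n) / a ^ n = n * (DM a / a) := by
  induction n with
  | zero =>
    rw [pow_zero]
    have : DM (1 : MF) = 0 := DM.map_one_eq_zero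
    rw [this]
    simp
  | succ n ih =>
    rw [pow_succ, ld_mul (pow_ne_zero n ha) ha, ih]
    push_cast
    ring

theorem ld_prod {ι : Type} (s : Finset ι) {a : ι → MF} (ha : ∀ i, a i ≠ 0) :
    DM (∏ i ∈ s, a i) / ∏ i ∈ s, a i = ∑ i ∈ s, DM (a i) / a i := by
  classical
  induction s using Finset.induction_on with
  | empty =>
    have : DM (1 : MF) = 0 := DM.map_one_eq_zero
    simp [this]
  | insert i s hi ih =>
    rw [Finset.prod_insert hi, Finset.sum_insert hi,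
      ld_mul (ha i) (Finset.prod_ne_zero_iff.2 fun j _ => ha j), ih]

theorem mf_ldv {a : Pt → ℂ} (ha : Mero a) : mf (ldv a) ha.ldv = DM (mf a ha) / mf a ha := by
  rw [DM_mf, mf_div, mf_eq]
  exact Eventually.of_forall fun p => ldv_apply a p

/-- the characteristics of the curves -/
noncomputable def Tfs {N : ℕ} (f : Fin (N + 1) → Pt → ℂ) : ℕ × ℝ → ℝ :=
  fun p => Tf (fun j => sl (f j) p.1) p.2

theorem curve_not_small {N : ℕ} {g : Fin (N + 1) → Pt → ℂ} (hg : ∀ j, Ent (g j))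
    (h0 : ∀ p, ∃ j, g j p ≠ 0) (hτ : ∀ p, τ p = Tfs g p) (H : Cmp L τ)
    (hpos : ∀ᶠ p in Lf L, 1 ≤ p.2 ∧ 0 < τ p) {l : Fin (N + 1)}
    (hl : ∀ᶠ k in (U : Filter ℕ), ∃ z, g l (k, z) ≠ 0)
    (hsm : ∀ j, Sm L τ fun z => g j z / g l z) : False := by
  have h1 : ∀ k, ∃ C : ℝ, (∃ z, g l (k, z) ≠ 0) → ∀ r, 1 ≤ r →
      Tf (fun j => sl (g j) k) r ≤
        ∑ i, characteristic (fun z => g i (k, z) / g l (k, z)) ⊤ r + C := by
    intro k
    by_cases hk : ∃ z, g l (k, z) ≠ 0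
    · obtain ⟨C, hC⟩ := Tf_le (f := fun j => sl (g j) k) (fun j => hg j k) (fun z => h0 (k, z)) l hk
      exact ⟨C, fun _ => hC⟩
    · exact ⟨0, fun h => absurd h hk⟩
  choose C hC using h1
  have h2 : (fun p : ℕ × ℝ => ∑ i, ch (fun z => g i z / g l z) p + C p.1) =o[Lf L] τ := by
    refine IsLittleO.add ?_ (H.const C)
    have h3 : (∑ i, ch (fun z => g i z / g l z)) =o[Lf L] τ :=
      IsLittleO.sum fun i _ => (hsm i).2
    refine h3.congr_left fun r => ?_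
    rw [Finset.sum_apply]
  have h3 : ∀ᶠ p in Lf L, τ p ≤ ∑ i, ch (fun z => g i z / g l z) p + C p.1 := by
    refine Lf_of_ev H ?_
    filter_upwards [hl] with k hk r hr
    rw [hτ]
    exact hC k hk r hr
  haveI := Lf_neBot fun k => (H.big k).ne
  obtain ⟨p, ⟨⟨h4, h5⟩, h6⟩⟩ := (((isLittleO_iff.1 h2) (show (0 : ℝ) < 1 / 2 by norm_num)).and
    h3).and hpos |>.exists
  rw [Real.norm_eq_abs, Real.norm_eq_abs, abs_of_pos (show 0 < τ p from h6.2)] at h4
  have h7 := le_abs_self (∑ i, ch (fun z => g i z / g l z) p + C p.1)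
  have h8 : 0 < τ p := h6.2
  linarith

/-- **Failure of uniform bounds** (`N131.SU.eng`). -/
theorem eng {ι : Type} {S X : ι → ℝ → ℝ} (hX : ∀ i r, 1 ≤ r → Real.log r ≤ X i r)
    (hZ : ¬ ∃ C : ℝ, ∀ i, ∃ E : Set ℝ, volume E < ⊤ ∧
      ∀ r, 1 ≤ r → r ∉ E → S i r ≤ C * X i r) :
    ∃ (i : ℕ → ι) (L : ℕ → Filter ℝ),
      Cmp L (fun p => S (i p.1) p.2) ∧
      (fun p : ℕ × ℝ => X (i p.1) p.2) =o[Lf L] (fun p => S (i p.1) p.2) ∧
      ∀ᶠ p in Lf L, 1 ≤ p.2 ∧ 0 < S (i p.1) p.2 := by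
  have h1 : ∀ k : ℕ, ∃ i, ∃ L : Filter ℝ, Big L ∧ ∀ᶠ r in L, 1 ≤ r ∧
      (k + 1) * X i r < S i r := by
    intro k
    by_contra hcon
    apply hZ
    refine ⟨(k + 1 : ℕ), fun i => ?_⟩
    by_contra hc2
    apply hcon
    have h2 : volume {r | 1 ≤ r ∧ (1 ≤ r ∧ ((k : ℝ) + 1) * X i r < S i r)} = ⊤ := by
      by_contra hc3
      apply hc2
      refine ⟨_, lt_top_iff_ne_top.2 hc3, fun r h3 h4 => ?_⟩
      by_contra h5
      apply h4
      push Not at h5
      push_cast at h5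
      exact ⟨h3, h3, h5⟩
    obtain ⟨L, hL, hLP⟩ := exists_big (P := fun _ r => 1 ≤ r ∧ ((k : ℝ) + 1) * X i r < S i r)
      (fun _ _ _ _ h => h) (fun _ => h2)
    exact ⟨i, L, hL, hLP 0⟩
  choose i L hL hP using h1
  have h2 : ∀ᶠ p in Lf L, 1 ≤ p.2 ∧ 0 < S (i p.1) p.2 := by
    rw [ev_Lf]
    refine Eventually.of_forall fun k => ?_
    filter_upwards [hP k] with r hr
    refine ⟨hr.1, ?_⟩
    have h3 := hX (i k) r hr.1
    have h4 := Real.log_nonneg hr.1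
    have h5 : 0 ≤ ((k : ℝ) + 1) * X (i k) r := mul_nonneg (by positivity) (h4.trans h3)
    exact lt_of_le_of_lt h5 hr.2
  have h3 : (fun p : ℕ × ℝ => X (i p.1) p.2) =o[Lf L] (fun p => S (i p.1) p.2) := by
    rw [isLittleO_iff]
    intro c hc
    rw [ev_Lf]
    obtain ⟨n, hn⟩ := exists_nat_gt (1 / c)
    have h4 : ∀ᶠ k in (U : Filter ℕ), n ≤ k :=
      (Nat.hyperfilter_le_atTop) (eventually_ge_atTop n)
    filter_upwards [h4] with k hk
    filter_upwards [hP k] with r hr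
    have h5 := (Real.log_nonneg hr.1).trans (hX (i k) r hr.1)
    have h6 : 0 ≤ S (i k) r := by
      have : 0 ≤ ((k : ℝ) + 1) * X (i k) r := mul_nonneg (by positivity) h5
      linarith [hr.2]
    rw [Real.norm_eq_abs, Real.norm_eq_abs, abs_of_nonneg h5, abs_of_nonneg h6]
    have h7 : 1 / c ≤ (k : ℝ) + 1 := by
      have : (n : ℝ) ≤ k := by exact_mod_cast hk
      linarith
    have h8 : 1 ≤ c * ((k : ℝ) + 1) := by
      rw [div_le_iff₀ hc] at h7
      linarith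
    calc X (i k) r = 1 * X (i k) r := (one_mul _).symm
      _ ≤ c * ((k : ℝ) + 1) * X (i k) r := mul_le_mul_of_nonneg_right h8 h5
      _ = c * (((k : ℝ) + 1) * X (i k) r) := by ring
      _ ≤ c * S (i k) r := mul_le_mul_of_nonneg_left hr.2.le hc.le
  refine ⟨i, L, ⟨hL, o_of_ev (t := fun p : ℕ × ℝ => X (i p.1) p.2) ?_ h3⟩, h3, h2⟩
  filter_upwards [h2] with p hp
  exact ⟨Real.log_nonneg hp.1, hX _ _ hp.1⟩

end Pool.Agent.H60K
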