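import Mathlib
import Pool.Agent.H60K.Sml
import Pool.Agent.H60S.Stm

/-!
Sequences of curves in hypersurfaces without rational curves of bounded degree, given by forms in
entire functions with few zeros.
-/

set_option autoImplicit false

namespace Pool.Agent.H60K

open MeasureTheory Set Filter Topology Metric Real ValueDistribution MeromorphicOn Function
open Asymptotics MvPolynomial Pool.Agent.V1153.UG
open Pool.Agent.N131.SU
open Pool.Agent.N131.SR (Tf)

/-- the exponents of the total degree `e` -/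
def Ad (m e : ℕ) : Finset (Fin m →₀ ℕ) := Finset.univ.finsuppAntidiag e

theorem mem_Ad {m e : ℕ} {α : Fin m →₀ ℕ} : α ∈ Ad m e ↔ ∑ i, α i = e := by
  unfold Ad
  rw [Finset.mem_finsuppAntidiag]
  exact ⟨fun h => h.1, fun h => ⟨h, Finset.subset_univ _⟩⟩

theorem Ad_le {m e : ℕ} {α : Fin m →₀ ℕ} (h : ∑ i, α i = e) (i : Fin m) : α i ≤ e := by
  rw [← h]
  exact Finset.single_le_sum (f := fun i => α i) (fun i _ => Nat.zero_le _) (Finset.mem_univ i)

theorem eval_Ad {n d : ℕ} {F : MvPolynomial (Fin n) ℂ} (hF : F.IsHomogeneous d)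
    (v : Fin n → ℂ) : eval v F = ∑ β ∈ Ad n d, coeff β F * ∏ j, v j ^ β j := by
  classical
  rw [MvPolynomial.eval_eq' v F]
  apply Finset.sum_subset
  · intro β hβ
    rw [mem_Ad]
    have h2 := hF (mem_support_iff.1 hβ)
    have h3 : Finsupp.degree β = d := by
      rw [Finsupp.degree_eq_weight_one]
      exact h2
    rwa [Finsupp.degree_eq_sum] at h3
  · intro β _ hβ
    rw [notMem_support_iff.1 hβ, zero_mul]

section comp

variable {S T : Type} [CommRing S] [CommRing T] {n m : ℕ} (d e : ℕ) (f : (Fin n →₀ ℕ) → S)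
  (a : Fin n → (Fin m →₀ ℕ) → S)

/-- the composition of forms -/
noncomputable def RS : MvPolynomial (Fin m) S :=
  bind₁ (fun j => ∑ α ∈ Ad m e, monomial α (a j α)) (∑ β ∈ Ad n d, monomial β (f β))

theorem RS_deg {γ : Fin m →₀ ℕ} (hγ : γ ∈ (RS d e f a).support) : ∑ i, γ i = e * d := by
  have h1 : ∀ (m e : ℕ) (c : (Fin m →₀ ℕ) → S),
      (∑ α ∈ Ad m e, monomial α (c α) : MvPolynomial (Fin m) S).IsHomogeneous e := by
    intro m e c
    apply IsHomogeneous.sum
    intro α hα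
    apply isHomogeneous_monomial
    rw [Finsupp.degree_eq_sum]
    exact mem_Ad.1 hα
  have h2 : (RS d e f a).IsHomogeneous (e * d) := by
    unfold RS
    rw [← aeval_eq_bind₁]
    exact (h1 n d f).aeval _ fun j => h1 m e (a j)
  have h3 := h2 (mem_support_iff.1 hγ)
  rw [← Finsupp.degree_eq_sum, Finsupp.degree_eq_weight_one]
  exact h3

theorem RS_eval (φ : S →+* T) (h : Fin m → T) :
    ∑ γ ∈ (RS d e f a).support, φ (coeff γ (RS d e f a)) * ∏ i, h i ^ γ i =
      ∑ β ∈ Ad n d, φ (f β) * ∏ j, (∑ α ∈ Ad m e, φ (a j α) * ∏ i, h i ^ α i) ^ β j := by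
  have h1 : ∀ (m e : ℕ) (c : (Fin m →₀ ℕ) → S) (h : Fin m → T),
      eval₂Hom φ h (∑ α ∈ Ad m e, monomial α (c α)) = ∑ α ∈ Ad m e, φ (c α) * ∏ i, h i ^ α i := by
    intro m e c h
    rw [map_sum]
    refine Finset.sum_congr rfl fun α _ => ?_
    rw [coe_eval₂Hom, eval₂_monomial]
    congr 1
    rw [Finsupp.prod_fintype]
    intro i
    exact pow_zero _
  rw [← eval₂_eq', ← coe_eval₂Hom]
  unfold RS
  rw [eval₂Hom_bind₁, h1]
  simp only [h1]

end comp

variable {L : ℕ → Filter ℝ} {τ : ℕ × ℝ → ℝ}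

/-- the ring of small sequences -/
noncomputable def SmR (H : Cmp L τ) : Subring (Pt → ℂ) where
  carrier := {a | Sm L τ a}
  mul_mem' := fun ha hb => ha.mul H hb
  one_mem' := sm_const H fun _ => 1
  add_mem' := fun ha hb => ha.add H hb
  zero_mem' := sm_const H fun _ => 0
  neg_mem' := by
    intro a ha
    have h1 := (sm_const H fun _ => -1).mul H ha
    have h2 : (fun z => (-1 : ℂ) * a z) = -a := by
      funext z
      simp
    rw [h2] at h1
    exact h1

/-- the value at a point -/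
noncomputable def evP (H : Cmp L τ) (p : Pt) : SmR H →+* ℂ :=
  (Pi.evalRingHom (fun _ : Pt => ℂ) p).comp (SmR H).subtype

/-- the class -/
noncomputable def mfS (H : Cmp L τ) : SmR H →+* MF where
  toFun a := mf a.1 a.2.1
  map_one' := rfl
  map_zero' := rfl
  map_add' _ _ := rfl
  map_mul' _ _ := rfl

theorem core {n m d e M B : ℕ} (hM : e * d ≤ M) (hM' : e ≤ M)
    (hB : ∀ R : Set (Fin (m + 1) → ℤ), (∀ q ∈ R, ∀ i, |q i| ≤ (M : ℤ)) →
      ∃ b : Fin (m + 1) → ℤ, (∀ i, |b i| ≤ (B : ℤ)) ∧ (∀ q ∈ R, ∑ i, q i * b i = 0) ∧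
        ∀ q : Fin (m + 1) → ℤ, (∀ i, |q i| ≤ (M : ℤ)) → ∑ i, q i * b i = 0 →
          ∃ N : ℕ, 0 < N ∧ N • q ∈ AddSubgroup.closure R)
    (hIND : H60S.S_IND) (hGMC : H60S.S_GMC)
    (F : ℕ → MvPolynomial (Fin (n + 1)) ℂ) (hF : ∀ k, (F k).IsHomogeneous d)
    (hno : ∀ k T, ¬ GmBdd (Ideal.span {F k}) 1 (2 * ((m + 1) * e * B)) T)
    (g : Fin (n + 1) → Pt → ℂ) (hg : ∀ j, Ent (g j)) (g0 : ∀ p, ∃ j, g j p ≠ 0)
    (gF : ∀ p, eval (fun j => g j p) (F p.1) = 0)
    (x : Fin (m + 1) → Pt → ℂ) (hx : ∀ i, Ent (x i)) (x0 : ∀ i k, ∃ z, x i (k, z) ≠ 0)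
    (a : Fin (n + 1) → (Fin (m + 1) →₀ ℕ) → Pt → ℂ)
    (hu : ∀ᶠ p in cod, ∃ u : ℂ, u ≠ 0 ∧
      ∀ j, ∑ α ∈ Ad (m + 1) e, a j α p * ∏ i, x i p ^ α i = u * g j p)
    (H : Cmp L τ) (hτ : ∀ p, τ p = Tfs g p) (hpos : ∀ᶠ p in Lf L, 1 ≤ p.2 ∧ 0 < τ p)
    (ha : ∀ j α, Sm L τ (a j α)) (hN : ∀ i, Nbs (x i) =o[Lf L] τ)
    (hot : ∀ i, OT L τ fun p => x i p / x 0 p) : False := by
  classical
  set κ : Fin (m + 1) → MF := fun i => mf (x i) (hx i).mero with hκ
  have hκ0 : ∀ i, κ i ≠ 0 := fun i h => by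
    have h1 := mf_eq_zero.1 h
    have h2 := ent_ne (hx i) (Eventually.of_forall (x0 i))
    obtain ⟨p, h3, h4⟩ := (h1.and h2).exists
    exact h4 h3
  -- logarithmic derivatives
  have hld : ∀ i, DM (κ i) / κ i - DM (κ 0) / κ 0 ∈ smf H := by
    intro i
    rw [← ld_div (hκ0 i) (hκ0 0)]
    have h1 : κ i / κ 0 = mf (fun p => x i p / x 0 p) ((hx i).mero.div (hx 0).mero) := mf_div _ _
    rw [h1, ← mf_ldv, mem_smf]
    exact sml H (hx i) (hx 0) (x0 i) (x0 0) (hot i) (hN i) (hN 0)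
  -- monomials
  set mon : (Fin (m + 1) →₀ ℕ) → MF := fun α => ∏ i, κ i ^ α i with hmon
  have hmon0 : ∀ α, mon α ≠ 0 := fun α =>
    Finset.prod_ne_zero_iff.2 fun i _ => pow_ne_zero _ (hκ0 i)
  have hmm : ∀ α : Fin (m + 1) →₀ ℕ, Mero fun p => ∏ i, x i p ^ α i := fun α =>
    mero_prod _ fun i => mero_pow (hx i).mero _
  have hmonmf : ∀ α, mon α = mf (fun p => ∏ i, x i p ^ α i) (hmm α) := by
    intro α
    simp only [hmon, hκ, mf_pow]
    exact mf_prod _ _
  have hmonld : ∀ α, DM (mon α) / mon α = ∑ i, (α i : MF) * (DM (κ i) / κ i) := by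
    intro α
    simp only [hmon]
    rw [ld_prod _ (fun i => pow_ne_zero _ (hκ0 i))]
    exact Finset.sum_congr rfl fun i _ => ld_pow (hκ0 i) _
  have hmonlds : ∀ α β : Fin (m + 1) →₀ ℕ, ∑ i, α i = ∑ i, β i →
      DM (mon α) / mon α - DM (mon β) / mon β ∈ smf H := by
    intro α β hαβ
    have h1 : DM (mon α) / mon α - DM (mon β) / mon β =
        ∑ i, ((α i : MF) - (β i : MF)) * (DM (κ i) / κ i - DM (κ 0) / κ 0) := by
      have h2 : ∑ i, ((α i : MF) - (β i : MF)) = 0 := by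
        rw [Finset.sum_sub_distrib, ← Nat.cast_sum, ← Nat.cast_sum, hαβ, sub_self]
      have h3 : ∑ i, ((α i : MF) - (β i : MF)) * (DM (κ i) / κ i - DM (κ 0) / κ 0) =
          ∑ i, ((α i : MF) - (β i : MF)) * (DM (κ i) / κ i) -
            (∑ i, ((α i : MF) - (β i : MF))) * (DM (κ 0) / κ 0) := by
        rw [Finset.sum_mul, ← Finset.sum_sub_distrib]
        exact Finset.sum_congr rfl fun i _ => by ring
      rw [h3, h2, zero_mul, sub_zero, hmonld, hmonld, ← Finset.sum_sub_distrib]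
      exact Finset.sum_congr rfl fun i _ => by ring
    rw [h1]
    refine sum_mem fun i _ => mul_mem (sub_mem ?_ ?_) (hld i)
    · exact natCast_mem _ _
    · exact natCast_mem _ _
  -- integral exponents
  set zmon : (Fin (m + 1) → ℤ) → MF := fun q => ∏ i, κ i ^ q i with hzmon
  have hz_add : ∀ q q', zmon (q + q') = zmon q * zmon q' := by
    intro q q'
    simp only [hzmon]
    rw [← Finset.prod_mul_distrib]
    exact Finset.prod_congr rfl fun i _ => zpow_add₀ (hκ0 i) _ _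
  have hz_zero : zmon 0 = 1 := by
    simp [hzmon]
  have hz_neg : ∀ q, zmon (-q) = (zmon q)⁻¹ := by
    intro q
    simp only [hzmon]
    rw [← Finset.prod_inv_distrib]
    exact Finset.prod_congr rfl fun i _ => zpow_neg _ _
  let G : AddSubgroup (Fin (m + 1) → ℤ) :=
    { carrier := {q | zmon q ∈ smf H}
      add_mem' := by
        intro q q' hq hq'
        rw [Set.mem_setOf_eq, hz_add]
        exact mul_mem hq hq'
      zero_mem' := by
        rw [Set.mem_setOf_eq, hz_zero]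
        exact one_mem _
      neg_mem' := by
        intro q hq
        rw [Set.mem_setOf_eq, hz_neg]
        exact inv_mem hq }
  have hmz : ∀ α β : Fin (m + 1) →₀ ℕ, mon α / mon β = zmon (fun i => (α i : ℤ) - β i) := by
    intro α β
    simp only [hmon, hzmon]
    rw [← Finset.prod_div_distrib]
    refine Finset.prod_congr rfl fun i _ => ?_
    rw [zpow_sub₀ (hκ0 i), zpow_natCast, zpow_natCast]
  obtain ⟨b, hbB, hbR, hbN⟩ := hB {q | (∀ i, |q i| ≤ (M : ℤ)) ∧ zmon q ∈ smf H} (fun q hq => hq.1)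
  have hroot : ∀ q : Fin (m + 1) → ℤ, (∀ i, |q i| ≤ (M : ℤ)) → ∑ i, q i * b i = 0 →
      zmon q ∈ smf H := by
    intro q hq hqb
    obtain ⟨N, hN0, hNq⟩ := hbN q hq hqb
    have h1 : N • q ∈ G := (AddSubgroup.closure_le G).2 (fun q hq => hq.2) hNq
    have h2 : zmon (N • q) = zmon q ^ N := by
      simp only [hzmon]
      rw [← Finset.prod_pow]
      refine Finset.prod_congr rfl fun i _ => ?_
      rw [Pi.smul_apply, nsmul_eq_mul, mul_comm, zpow_mul, zpow_natCast]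
    have h3 : zmon (N • q) ∈ smf H := h1
    rw [h2] at h3
    exact smf_of_pow hN0 h3
  set wt : (Fin (m + 1) →₀ ℕ) → ℤ := fun α => ∑ i, (α i : ℤ) * b i with hwt
  have hdiff : ∀ (D : ℕ), D ≤ M → ∀ α β : Fin (m + 1) →₀ ℕ, ∑ i, α i = D → ∑ i, β i = D →
      ∀ i, |(α i : ℤ) - β i| ≤ (M : ℤ) := by
    intro D hD α β hα hβ i
    have h1 := Ad_le hα i
    have h2 := Ad_le hβ i
    rw [abs_le]
    constructor <;> omega
  have hwtsub : ∀ α β : Fin (m + 1) →₀ ℕ, ∑ i, ((α i : ℤ) - β i) * b i = wt α - wt β := by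
    intro α β
    simp only [hwt]
    rw [← Finset.sum_sub_distrib]
    exact Finset.sum_congr rfl fun i _ => by ring
  -- the relation
  set f' : (Fin (n + 1) →₀ ℕ) → SmR H := fun β =>
    ⟨fun p => coeff β (F p.1), sm_const H fun k => coeff β (F k)⟩ with hf'
  set a' : Fin (n + 1) → (Fin (m + 1) →₀ ℕ) → SmR H := fun j α => ⟨a j α, ha j α⟩ with ha'
  set R := RS d e f' a' with hR
  have hev : ∀ (p : Pt) (h : Fin (m + 1) → ℂ),
      ∑ γ ∈ R.support, evP H p (coeff γ R) * ∏ i, h i ^ γ i =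
        eval (fun j => ∑ α ∈ Ad (m + 1) e, a j α p * ∏ i, h i ^ α i) (F p.1) := by
    intro p h
    rw [eval_Ad (hF p.1), hR, RS_eval]
    rfl
  set Z : (Fin (m + 1) →₀ ℕ) → Pt → ℂ := fun γ p => (coeff γ R).1 p * ∏ i, x i p ^ γ i with hZ
  have hZm : ∀ γ, Mero (Z γ) := fun γ => (coeff γ R).2.1.mul (hmm γ)
  have hZmf : ∀ γ, mfS H (coeff γ R) * mon γ = mf (Z γ) (hZm γ) := by
    intro γ
    rw [hmonmf]
    rfl
  have hrel : ∑ γ ∈ R.support, mfS H (coeff γ R) * mon γ = 0 := by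
    rw [Finset.sum_congr rfl fun γ _ => hZmf γ, mf_sum, mf_eq_zero]
    filter_upwards [hu] with p hp
    obtain ⟨u, hu0, hup⟩ := hp
    have h1 := hev p fun i => x i p
    have h2 : (fun j => ∑ α ∈ Ad (m + 1) e, a j α p * ∏ i, x i p ^ α i) = fun j => u * g j p :=
      funext hup
    rw [h2] at h1
    have h3 : eval (fun j => u * g j p) (F p.1) = u ^ d * eval (fun j => g j p) (F p.1) := by
      rw [eval_Ad (hF p.1), eval_Ad (hF p.1), Finset.mul_sum]
      refine Finset.sum_congr rfl fun β hβ => ?_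
      simp only [mul_pow, Finset.prod_mul_distrib]
      rw [Finset.prod_pow_eq_pow_sum, mem_Ad.1 hβ]
      ring
    rw [h3, gF, mul_zero] at h1
    exact h1
  have hcls := hIND MF (Fin (m + 1) →₀ ℕ) DM (smf H) (fun y hy => DM_smf hy)
    (fun y hy => smf_of_DM hy) mon hmon0 R.support (fun α hα β hβ => hmonlds α β (by
      rw [RS_deg d e f' a' hα, RS_deg d e f' a' hβ])) (fun γ => mfS H (coeff γ R))
    (fun γ _ => (mem_smf (ha := (coeff γ R).2.1)).2 (coeff γ R).2) hrel wt (fun α hα β hβ hαβ => by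
      have h1 : zmon (fun i => (α i : ℤ) - β i) ∈ smf H := by
        rw [← hmz]
        exact hαβ
      have h2 := hbR (fun i => (α i : ℤ) - β i) ⟨hdiff (e * d) hM α β
        (RS_deg d e f' a' hα) (RS_deg d e f' a' hβ), h1⟩
      rw [hwtsub] at h2
      linarith)
  have hcod : ∀ᶠ p in cod, ∀ w ∈ R.support.image wt, ∑ γ ∈ R.support with wt γ = w, Z γ p = 0 := by
    rw [eventually_all_finset]
    intro w _
    have h1 := hcls w
    rw [Finset.sum_congr rfl fun γ _ => hZmf γ, mf_sum, mf_eq_zero] at h1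
    exact h1
  have hline : ∀ᶠ p in cod, ∀ t : ℂ, t ≠ 0 →
      eval (fun j => ∑ α ∈ Ad (m + 1) e, a j α p * ∏ i, (x i p * t ^ b i) ^ α i) (F p.1) = 0 := by
    filter_upwards [hcod] with p hp t ht
    rw [← hev p fun i => x i p * t ^ b i]
    have h1 : ∀ γ ∈ R.support, evP H p (coeff γ R) * ∏ i, (x i p * t ^ b i) ^ γ i =
        t ^ wt γ * Z γ p := by
      intro γ _
      have h2 := prod_zpow ht b fun i => (γ i : ℤ)
      simp only [zpow_natCast] at h2
      simp only [mul_pow, Finset.prod_mul_distrib]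
      rw [h2]
      change (coeff γ R).1 p * _ = _
      simp only [hZ, hwt]
      ring
    rw [Finset.sum_congr rfl h1, ← Finset.sum_fiberwise_of_maps_to
      (fun γ hγ => Finset.mem_image_of_mem wt hγ) (fun γ => t ^ wt γ * Z γ p)]
    refine Finset.sum_eq_zero fun w hw => ?_
    have h3 : ∀ γ ∈ R.support.filter (fun γ => wt γ = w), t ^ wt γ * Z γ p = t ^ w * Z γ p := by
      intro γ hγ
      rw [(Finset.mem_filter.1 hγ).2]
    rw [Finset.sum_congr rfl h3, ← Finset.mul_sum, hp w hw, mul_zero]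
  -- the graded parts
  set Y : Fin (n + 1) → (Fin (m + 1) →₀ ℕ) → Pt → ℂ :=
    fun j α p => a j α p * ∏ i, x i p ^ α i with hY
  have hYm : ∀ j α, Mero (Y j α) := fun j α => (ha j α).1.mul (hmm α)
  have hYmf : ∀ j α, mf (Y j α) (hYm j α) = mf (a j α) (ha j α).1 * mon α := by
    intro j α
    rw [hmonmf]
    rfl
  set Et : Fin (n + 1) → MF := fun j => ∑ α ∈ Ad (m + 1) e, mf (Y j α) (hYm j α) with hEt
  set E : Fin (n + 1) → ℤ → MF := fun j w =>
    ∑ α ∈ Ad (m + 1) e with wt α = w, mf (Y j α) (hYm j α) with hE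
  have hEE : ∀ j l w, E j w * Et l = E l w * Et j := by
    intro j l w
    simp only [hE, hEt]
    rw [mf_sum, mf_sum, mf_sum, mf_sum, mf_mul, mf_mul, mf_eq]
    filter_upwards [hline] with p hp
    exact hGMC n (m + 1) d e B (F p.1) (hF p.1) (hno p.1) (Ad (m + 1) e)
      (fun α hα i => Ad_le (mem_Ad.1 hα) i) (fun j α => a j α p) (fun i => x i p) b hbB hp j l w
  obtain ⟨l, hl⟩ := ev_index (P := fun l k => ∃ z, g l (k, z) ≠ 0)
    fun k => (g0 (k, 0)).imp fun l hl => ⟨0, hl⟩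
  have hgl : mf (g l) (hg l).mero ≠ 0 := fun h => by
    have h1 := mf_eq_zero.1 h
    obtain ⟨p, h3, h4⟩ := (h1.and (ent_ne (hg l) hl)).exists
    exact h4 h3
  have hEg : ∀ j, Et j * mf (g l) (hg l).mero = Et l * mf (g j) (hg j).mero := by
    intro j
    simp only [hEt]
    rw [mf_sum, mf_sum, mf_mul, mf_mul, mf_eq]
    filter_upwards [hu] with p hp
    obtain ⟨u, hu0, hup⟩ := hp
    change (∑ α ∈ Ad (m + 1) e, a j α p * ∏ i, x i p ^ α i) * g l p =
      (∑ α ∈ Ad (m + 1) e, a l α p * ∏ i, x i p ^ α i) * g j p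
    rw [hup, hup]
    ring
  have hEl : Et l ≠ 0 := by
    intro h
    simp only [hEt] at h
    rw [mf_sum, mf_eq_zero] at h
    obtain ⟨p, ⟨h3, h4⟩, u, hu0, hup⟩ := ((h.and (ent_ne (hg l) hl)).and hu).exists
    have h5 := hup l
    rw [h3] at h5
    exact (mul_ne_zero hu0 h4) h5.symm
  obtain ⟨w, hw⟩ : ∃ w, E l w ≠ 0 := by
    by_contra hcon
    push Not at hcon
    apply hEl
    simp only [hEt]
    rw [← Finset.sum_fiberwise_of_maps_to
      (fun γ hγ => Finset.mem_image_of_mem wt hγ) (fun α => mf (Y l α) (hYm l α))]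
    exact Finset.sum_eq_zero fun w _ => hcon w
  obtain ⟨α₀, hα₀⟩ : ((Ad (m + 1) e).filter fun α => wt α = w).Nonempty := by
    rw [Finset.nonempty_iff_ne_empty]
    intro h
    apply hw
    simp only [hE]
    rw [h, Finset.sum_empty]
  obtain ⟨hα₀A, hα₀w⟩ := Finset.mem_filter.1 hα₀
  have hES : ∀ j, E j w / mon α₀ ∈ smf H := by
    intro j
    simp only [hE]
    rw [Finset.sum_div]
    refine sum_mem fun α hα => ?_
    obtain ⟨hαA, hαw⟩ := Finset.mem_filter.1 hα
    rw [hYmf, mul_div_assoc]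
    refine mul_mem (mem_smf.2 (ha j α)) ?_
    rw [hmz]
    refine hroot _ (hdiff e hM' α α₀ (mem_Ad.1 hαA) (mem_Ad.1 hα₀A)) ?_
    rw [hwtsub, hαw, hα₀w, sub_self]
  refine curve_not_small hg g0 hτ H hpos hl fun j => ?_
  have h1 : mf (g j) (hg j).mero / mf (g l) (hg l).mero =
      (E j w / mon α₀) / (E l w / mon α₀) := by
    rw [div_div_div_cancel_right₀ (hmon0 α₀), div_eq_div_iff hgl hw]
    have h2 := hEE j l w
    have h3 := hEg j
    apply mul_left_cancel₀ hEl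
    linear_combination (-(E l w)) * h3 - (mf (g l) (hg l).mero) * h2
  have h2 : mf (g j) (hg j).mero / mf (g l) (hg l).mero ∈ smf H := by
    rw [h1]
    exact div_mem (hES j) (hES l)
  rw [mf_div, mem_smf] at h2
  exact h2

end Pool.Agent.H60K
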