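import Mathlib
import Pool.Agent.H60K.Smain

/-!
The uniform bound for curves in hypersurfaces without rational curves of bounded degree.
-/

set_option autoImplicit false

namespace Pool.Agent.H60K

open MeasureTheory Set Filter Topology Metric Real ValueDistribution MeromorphicOn Function
open Asymptotics MvPolynomial Pool.Agent.V1153.UG
open Pool.Agent.N131.SU
open Pool.Agent.N131.SR (Tf Nb Nb_nonneg)

/-- a curve in a hypersurface, given by forms in entire functions with meromorphic coefficients -/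
structure Dat (n m d e : ℕ) (Good : MvPolynomial (Fin (n + 1)) ℂ → Prop) where
  F : MvPolynomial (Fin (n + 1)) ℂ
  hF : F.IsHomogeneous d
  good : Good F
  g : Fin (n + 1) → ℂ → ℂ
  hg : ∀ j, Differentiable ℂ (g j)
  g0 : ∀ z, ∃ j, g j z ≠ 0
  gF : ∀ z, eval (fun j => g j z) F = 0
  k : Fin (m + 1) → ℂ → ℂ
  hk : ∀ i, Differentiable ℂ (k i)
  k0 : ∀ i, ∃ z, k i z ≠ 0
  a : Fin (n + 1) → (Fin (m + 1) →₀ ℕ) → ℂ → ℂ
  ha : ∀ j, ∀ α ∈ Ad (m + 1) e, Meromorphic (a j α)
  hu : ∀ᶠ z in codiscrete ℂ, ∃ u : ℂ, u ≠ 0 ∧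
    ∀ j, ∑ α ∈ Ad (m + 1) e, a j α z * ∏ i, k i z ^ α i = u * g j z

variable {n m d e : ℕ} {Good : MvPolynomial (Fin (n + 1)) ℂ → Prop}

/-- the right side -/
noncomputable def Dat.X (c : Dat n m d e Good) (r : ℝ) : ℝ :=
  ∑ i, Nb (c.k i) r + ∑ j, ∑ α ∈ Ad (m + 1) e, characteristic (c.a j α) ⊤ r + Real.log r +
    Real.log (1 + ∑ i, characteristic (fun z => c.k i z / c.k 0 z) ⊤ r)

theorem Dat.parts (c : Dat n m d e Good) {r : ℝ} (hr : 1 ≤ r) :
    Real.log r ≤ c.X r ∧ (∀ i, Nb (c.k i) r ≤ c.X r) ∧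
      (∀ j, ∀ α ∈ Ad (m + 1) e, characteristic (c.a j α) ⊤ r ≤ c.X r) ∧
      ∀ i, Real.log (1 + |characteristic (fun z => c.k i z / c.k 0 z) ⊤ r|) ≤ c.X r := by
  have h1 : ∀ i, 0 ≤ Nb (c.k i) r := fun i => Nb_nonneg hr
  have h2 : ∀ j α, 0 ≤ characteristic (c.a j α) ⊤ r := fun j α => characteristic_nonneg hr
  have h3 : ∀ i, 0 ≤ characteristic (fun z => c.k i z / c.k 0 z) ⊤ r :=
    fun i => characteristic_nonneg hr
  have h4 : 0 ≤ Real.log r := Real.log_nonneg hr
  have s1 : 0 ≤ ∑ i, Nb (c.k i) r := Finset.sum_nonneg fun i _ => h1 i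
  have s2 : 0 ≤ ∑ j, ∑ α ∈ Ad (m + 1) e, characteristic (c.a j α) ⊤ r :=
    Finset.sum_nonneg fun j _ => Finset.sum_nonneg fun α _ => h2 j α
  have s3 : 0 ≤ ∑ i, characteristic (fun z => c.k i z / c.k 0 z) ⊤ r :=
    Finset.sum_nonneg fun i _ => h3 i
  have s4 : 0 ≤ Real.log (1 + ∑ i, characteristic (fun z => c.k i z / c.k 0 z) ⊤ r) :=
    Real.log_nonneg (by linarith)
  unfold Dat.X
  refine ⟨by linarith, fun i => ?_, fun j α hα => ?_, fun i => ?_⟩
  · have := Finset.single_le_sum (f := fun i => Nb (c.k i) r) (fun i _ => h1 i)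
      (Finset.mem_univ i)
    linarith
  · have t1 := Finset.single_le_sum (f := fun α => characteristic (c.a j α) ⊤ r)
      (fun α _ => h2 j α) hα
    have t2 := Finset.single_le_sum
      (f := fun j => ∑ α ∈ Ad (m + 1) e, characteristic (c.a j α) ⊤ r)
      (fun j _ => Finset.sum_nonneg fun α _ => h2 j α) (Finset.mem_univ j)
    linarith
  · have t1 := Finset.single_le_sum (f := fun i => characteristic (fun z => c.k i z / c.k 0 z) ⊤ r)
      (fun i _ => h3 i) (Finset.mem_univ i)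
    rw [abs_of_nonneg (h3 i)]
    have t2 : Real.log (1 + characteristic (fun z => c.k i z / c.k 0 z) ⊤ r) ≤
        Real.log (1 + ∑ i, characteristic (fun z => c.k i z / c.k 0 z) ⊤ r) :=
      Real.log_le_log (by linarith [h3 i]) (by linarith)
    linarith

theorem main_bound (hVEC : H60S.S_VEC) (hIND : H60S.S_IND) (hGMC : H60S.S_GMC) (n m d e : ℕ) :
    ∃ B : ℕ, ∃ C : ℝ, ∀ c : Dat n m d e (fun F => ∀ T, ¬ GmBdd (Ideal.span {F}) 1 B T),
      ∃ E : Set ℝ, volume E < ⊤ ∧ ∀ r, 1 ≤ r → r ∉ E → Tf c.g r ≤ C * c.X r := by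
  classical
  obtain ⟨B, hB⟩ := hVEC (m + 1) (e * d + e)
  refine ⟨2 * ((m + 1) * e * B), ?_⟩
  by_contra hcon
  obtain ⟨c, L, H, hX, hpos⟩ := eng (S := fun c : Dat n m d e _ => Tf c.g)
    (X := fun c : Dat n m d e _ => c.X) (fun c r hr => (c.parts hr).1) hcon
  set τ : ℕ × ℝ → ℝ := fun p => Tf (c p.1).g p.2 with hτ
  let x : Fin (m + 1) → Pt → ℂ := fun i p => (c p.1).k i p.2
  let a : Fin (n + 1) → (Fin (m + 1) →₀ ℕ) → Pt → ℂ := fun j α p =>
    if α ∈ Ad (m + 1) e then (c p.1).a j α p.2 else 0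
  have hge : ∀ᶠ p : ℕ × ℝ in Lf L, 1 ≤ p.2 := H.ge
  refine core (M := e * d + e) (B := B) (H := H) (τ := τ) (by omega) (by omega) hB hIND hGMC
    (fun k => (c k).F) (fun k => (c k).hF) (fun k => (c k).good) (fun j p => (c p.1).g j p.2)
    (fun j k => (c k).hg j) (fun p => (c p.1).g0 p.2) (fun p => (c p.1).gF p.2) x
    (fun i k => (c k).hk i) (fun i k => (c k).k0 i) a ?_ (fun p => rfl) hpos ?_ ?_ ?_
  · rw [ev_cod]
    refine Eventually.of_forall fun k => ?_
    filter_upwards [(c k).hu] with z hz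
    obtain ⟨u, hu0, hu⟩ := hz
    refine ⟨u, hu0, fun j => ?_⟩
    rw [← hu j]
    refine Finset.sum_congr rfl fun α hα => ?_
    simp only [a, x, if_pos hα]
  · intro j α
    by_cases hα : α ∈ Ad (m + 1) e
    · have h1 : a j α = fun p => (c p.1).a j α p.2 := by
        funext p
        simp only [a, if_pos hα]
      rw [h1]
      refine ⟨fun k => (c k).ha j α hα, ?_⟩
      refine o_of_ev (t := fun p : ℕ × ℝ => (c p.1).X p.2) ?_ hX
      filter_upwards [hge] with p hp
      exact ⟨characteristic_nonneg hp, ((c p.1).parts hp).2.2.1 j α hα⟩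
    · have h1 : a j α = fun _ => 0 := by
        funext p
        simp only [a, if_neg hα]
      rw [h1]
      exact sm_const H fun _ => 0
  · intro i
    refine o_of_ev (t := fun p : ℕ × ℝ => (c p.1).X p.2) ?_ hX
    filter_upwards [hge] with p hp
    exact ⟨Nb_nonneg hp, ((c p.1).parts hp).2.1 i⟩
  · intro i
    refine ⟨fun k => ?_, ?_⟩
    · exact (show Meromorphic ((c k).k i) from fun z =>
        (((c k).hk i).analyticAt z).meromorphicAt).div (show Meromorphic ((c k).k 0) from fun z =>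
        (((c k).hk 0).analyticAt z).meromorphicAt)
    · refine o_of_ev (t := fun p : ℕ × ℝ => (c p.1).X p.2) ?_ hX
      filter_upwards [hge] with p hp
      exact ⟨Real.log_nonneg (by linarith [abs_nonneg (ch (fun p => x i p / x 0 p) p)]),
        ((c p.1).parts hp).2.2.2 i⟩

end Pool.Agent.H60K
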