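import Mathlib
import Pool.Agent.H60K.Sdat

/-!
The second main theorem for hyperplanes; curves which are highly ramified over hyperplanes.
-/

set_option autoImplicit false

namespace Pool.Agent.H60K

open MeasureTheory Set Filter Topology Metric Real ValueDistribution MeromorphicOn Function
open Asymptotics MvPolynomial Pool.Agent.V1153.UG
open Pool.Agent.N131.SU
open Function.locallyFinsuppWithin
open Pool.Agent.N131.SR (Tf Nb Nb_nonneg ratio_le f_avg curve_int curve_cont curve_pos Nb_eq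
  zeros_finite)

/-- sums over the exponents of the degree one -/
theorem sum_Ad_one {m : ℕ} (f : (Fin m →₀ ℕ) → ℂ) :
    ∑ α ∈ Ad m 1, f α = ∑ s, f (Finsupp.single s 1) := by
  classical
  have h1 : Ad m 1 = Finset.univ.image fun s : Fin m => Finsupp.single s 1 := by
    ext α
    rw [mem_Ad, Finset.mem_image]
    constructor
    · intro h
      have h2 : ∃ s, α s ≠ 0 := by
        by_contra hcon
        push Not at hcon
        simp [hcon] at h
      obtain ⟨s, hs⟩ := h2
      refine ⟨s, Finset.mem_univ s, ?_⟩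
      ext t
      have h3 := Finset.add_sum_erase Finset.univ (fun i => α i) (Finset.mem_univ s)
      have h5 : α s = 1 ∧ ∑ i ∈ Finset.univ.erase s, α i = 0 := by
        rw [h] at h3
        constructor
        · have : α s ≤ 1 := by omega
          omega
        · omega
      by_cases hst : s = t
      · subst hst
        rw [Finsupp.single_eq_same, h5.1]
      · rw [Finsupp.single_eq_of_ne (fun h => hst h.symm)]
        exact ((Finset.sum_eq_zero_iff.1 h5.2) t
          (Finset.mem_erase.2 ⟨fun h => hst h.symm, Finset.mem_univ t⟩)).symm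
    · rintro ⟨s, -, rfl⟩
      simp [Finsupp.single_apply]
  rw [h1, Finset.sum_image]
  intro s _ t _ hst
  exact (Finsupp.single_left_injective one_ne_zero) hst

theorem prod_single {m : ℕ} (s : Fin m) (k : Fin m → ℂ) :
    ∏ i, k i ^ (Finsupp.single s 1 : Fin m →₀ ℕ) i = k s := by
  classical
  rw [Finset.prod_eq_single s]
  · rw [Finsupp.single_eq_same, pow_one]
  · intro t _ ht
    rw [Finsupp.single_eq_of_ne ht, pow_zero]
  · intro h
    exact absurd (Finset.mem_univ s) h

/-- comparison of the logarithm with linear functions -/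
theorem log_lin {δ y : ℝ} (hδ : 0 < δ) (hy : 0 ≤ y) :
    Real.log (1 + y) ≤ δ * (1 + y) - 1 - Real.log δ := by
  have h1 := Real.log_le_sub_one_of_pos (x := δ * (1 + y)) (by positivity)
  rw [Real.log_mul hδ.ne' (by positivity)] at h1
  linarith

/-- bounded constants can be absorbed -/
theorem absorb {S X : ℝ → ℝ} {C c : ℝ} {E : Set ℝ} (hE : volume E < ⊤)
    (h : ∀ r, 1 ≤ r → r ∉ E → S r ≤ C * (X r + Real.log r) + c) (hX : ∀ r, 1 ≤ r → 0 ≤ X r) :
    ∃ E : Set ℝ, volume E < ⊤ ∧ ∀ r, 1 ≤ r → r ∉ E → S r ≤ (C + 1) * (X r + Real.log r) := by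
  refine ⟨E ∪ Icc 1 (Real.exp c), ?_, fun r hr hrE => ?_⟩
  · refine (measure_union_le _ _).trans_lt (ENNReal.add_lt_top.2 ⟨hE, ?_⟩)
    rw [Real.volume_Icc]
    exact ENNReal.ofReal_lt_top
  · have h1 := h r hr fun h => hrE (Or.inl h)
    have h2 : Real.exp c < r := by
      by_contra hcon
      exact hrE (Or.inr ⟨hr, not_lt.1 hcon⟩)
    have h3 : c < Real.log r := by
      rw [← Real.log_exp c]
      exact Real.log_lt_log (Real.exp_pos c) h2
    have h4 := hX r hr
    linarith

theorem hyp_bound (hVEC : H60S.S_VEC) (hIND : H60S.S_IND) (hGMC : H60S.S_GMC) (n d : ℕ) :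
    ∃ (B : ℕ) (C : ℝ), 0 ≤ C ∧ ∀ F : MvPolynomial (Fin (n + 1)) ℂ, F.IsHomogeneous d →
      (∀ T, ¬ GmBdd (Ideal.span {F}) 1 B T) → ∀ g : Fin (n + 1) → ℂ → ℂ,
      (∀ j, Differentiable ℂ (g j)) → (∀ z, ∃ j, g j z ≠ 0) → (∀ z, eval (fun j => g j z) F = 0) →
      ∀ A : Matrix (Fin (n + 1)) (Fin (n + 1)) ℂ, IsUnit A.det →
      ∀ I : Finset (Fin (n + 1)), (∀ i, i ∈ I ↔ ∃ z, ∑ j, A i j * g j z ≠ 0) →
      ∃ E : Set ℝ, volume E < ⊤ ∧ ∀ r, 1 ≤ r → r ∉ E →
        Tf g r ≤ C * (∑ i ∈ I, Nb (fun z => ∑ j, A i j * g j z) r + Real.log r) := by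
  classical
  choose B C hC using fun m => main_bound hVEC hIND hGMC n m d 1
  set B' := (Finset.range (n + 1)).sup B with hB'
  set C' : ℝ := ∑ m ∈ Finset.range (n + 1), |C m| + 1 with hC'
  have hC'0 : 1 ≤ C' := by
    have : 0 ≤ ∑ m ∈ Finset.range (n + 1), |C m| := Finset.sum_nonneg fun m _ => abs_nonneg _
    linarith
  refine ⟨B', 2 * C' + 1, by linarith, fun F hF hno g hg g0 gF A hA I hI => ?_⟩
  -- the forms which do not vanish
  set y : Fin (n + 1) → ℂ → ℂ := fun i z => ∑ j, A i j * g j z with hy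
  have hyd : ∀ i, Differentiable ℂ (y i) := fun i =>
    Differentiable.fun_sum fun j _ => (hg j).const_mul _
  have hyA : ∀ z, (fun i => y i z) = A.mulVec fun j => g j z := fun z => rfl
  have hinv : ∀ j z, g j z = ∑ i, A⁻¹ j i * y i z := by
    intro j z
    have h1 : (A⁻¹.mulVec (fun i => y i z)) j = g j z := by
      rw [hyA, Matrix.mulVec_mulVec, Matrix.nonsing_inv_mul _ hA, Matrix.one_mulVec]
    exact h1.symm
  have hy0 : ∀ z, ∃ i, y i z ≠ 0 := by
    intro z
    by_contra hcon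
    push Not at hcon
    obtain ⟨j, hj⟩ := g0 z
    apply hj
    rw [hinv]
    simp [hcon]
  have hIne : I.Nonempty := by
    obtain ⟨i, hi⟩ := hy0 0
    exact ⟨i, (hI i).2 ⟨0, hi⟩⟩
  obtain ⟨m, hm⟩ : ∃ m, I.card = m + 1 := ⟨I.card - 1, by have := hIne.card_pos; omega⟩
  have hmn : m ∈ Finset.range (n + 1) := by
    have h1 := Finset.card_le_univ I
    rw [Fintype.card_fin] at h1
    exact Finset.mem_range.2 (by omega)
  let σ : Fin (m + 1) ≃ I := (I.equivFinOfCardEq hm).symm
  let k : Fin (m + 1) → ℂ → ℂ := fun s => y (σ s)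
  have hkd : ∀ s, Differentiable ℂ (k s) := fun s => hyd _
  have hk0 : ∀ s, ∃ z, k s z ≠ 0 := fun s => (hI _).1 (σ s).2
  have hsum : ∀ f : Fin (n + 1) → ℂ, (∀ i, i ∉ I → f i = 0) → ∑ i, f i = ∑ s, f (σ s) := by
    intro f hf
    rw [← Finset.sum_subset (Finset.subset_univ I) (fun i _ hi => hf i hi), ← Finset.sum_coe_sort I]
    exact (Equiv.sum_comp σ fun i : I => f i).symm
  have hyI : ∀ i, i ∉ I → ∀ z, y i z = 0 := by
    intro i hi z
    by_contra hcon
    exact hi ((hI i).2 ⟨z, hcon⟩)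
  have hgk : ∀ j z, ∑ s, A⁻¹ j (σ s) * k s z = g j z := by
    intro j z
    rw [hinv, hsum (fun i => A⁻¹ j i * y i z) fun i hi => by rw [hyI i hi z, mul_zero]]
  have hkz : ∀ z, ∃ s, k s z ≠ 0 := by
    intro z
    by_contra hcon
    push Not at hcon
    obtain ⟨j, hj⟩ := g0 z
    apply hj
    rw [← hgk]
    simp [hcon]
  let c : Dat n m d 1 (fun F => ∀ T, ¬ GmBdd (Ideal.span {F}) 1 (B m) T) :=
    { F := F
      hF := hF
      good := fun T hT => hno T ⟨fun j => (hT.deg j).trans (Finset.le_sup (f := B) hmn), hT.mem,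
        hT.off, hT.nc⟩
      g := g
      hg := hg
      g0 := g0
      gF := gF
      k := k
      hk := hkd
      k0 := hk0
      a := fun j α _ => ∑ s, (α s : ℂ) * A⁻¹ j (σ s)
      ha := fun j α _ => Meromorphic.const _
      hu := by
        refine Eventually.of_forall fun z => ⟨1, one_ne_zero, fun j => ?_⟩
        rw [sum_Ad_one, one_mul, ← hgk]
        refine Finset.sum_congr rfl fun s _ => ?_
        rw [prod_single]
        congr 1
        rw [Finset.sum_eq_single s]
        · simp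
        · intro t _ ht
          rw [Finsupp.single_eq_of_ne ht]
          simp
        · intro h
          exact absurd (Finset.mem_univ s) h }
  obtain ⟨E, hE, hb⟩ := hC m c
  -- the ratios
  have hrat : ∀ s, ∃ C1 : ℝ, ∀ r, 1 ≤ r →
      characteristic (fun z => k s z / k 0 z) ⊤ r ≤ Tf k r + C1 := fun s =>
    ratio_le hkd hkz s 0 (hk0 0)
  choose C1 hC1 using hrat
  obtain ⟨K, hK0, hK⟩ : ∃ K : ℝ, 0 < K ∧ ∀ z, ‖(fun s => k s z : Fin (m + 1) → ℂ)‖ ≤
      K * ‖(fun j => g j z : Fin (n + 1) → ℂ)‖ := by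
    refine ⟨∑ i, ∑ j, ‖A i j‖ + 1, by positivity, fun z => ?_⟩
    have hpos : 0 ≤ (∑ i, ∑ j, ‖A i j‖ + 1) * ‖(fun j => g j z : Fin (n + 1) → ℂ)‖ := by positivity
    rw [pi_norm_le_iff_of_nonneg hpos]
    intro s
    change ‖∑ j, A (σ s) j * g j z‖ ≤ _
    refine (norm_sum_le _ _).trans ?_
    have h1 : ∀ j ∈ (Finset.univ : Finset (Fin (n + 1))), ‖A (σ s) j * g j z‖ ≤
        ‖A (σ s) j‖ * ‖(fun j => g j z : Fin (n + 1) → ℂ)‖ := by
      intro j _
      rw [norm_mul]
      exact mul_le_mul_of_nonneg_left (norm_le_pi_norm (fun j => g j z : Fin (n + 1) → ℂ) j)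
        (norm_nonneg _)
    refine (Finset.sum_le_sum h1).trans ?_
    rw [← Finset.sum_mul]
    refine mul_le_mul_of_nonneg_right ?_ (norm_nonneg _)
    have h2 := Finset.single_le_sum (f := fun i => ∑ j, ‖A i j‖)
      (fun i _ => Finset.sum_nonneg fun j _ => norm_nonneg _) (Finset.mem_univ (σ s : Fin (n + 1)))
    linarith
  have hTk : ∀ r, Tf k r ≤ Tf g r + Real.log K := by
    intro r
    have h1 : Tf g r + Real.log K =
        circleAverage (fun z => Real.log ‖(fun j => g j z : Fin (n + 1) → ℂ)‖ + Real.log K) 0 r := by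
      rw [circleAverage_fun_add (curve_int hg g0 r) (circleIntegrable_const _ _ _),
        circleAverage_const]
      rfl
    rw [h1]
    refine circleAverage_mono (curve_int hkd hkz r)
      ((curve_int hg g0 r).add (circleIntegrable_const _ _ _)) fun z _ => ?_
    have h2 := curve_pos (f := g) g0 z
    have h3 := curve_pos (f := k) hkz z
    have h4 := Real.log_le_log h3 (hK z)
    rw [Real.log_mul hK0.ne' h2.ne'] at h4
    linarith
  set D1 : ℝ := ∑ s, |C1 s| + |Real.log K| with hD1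
  have hTr : ∀ r, 1 ≤ r → ∀ s, characteristic (fun z => k s z / k 0 z) ⊤ r ≤ Tf g r + D1 := by
    intro r hr s
    have h1 := hC1 s r hr
    have h2 := hTk r
    have h3 := Finset.single_le_sum (f := fun s => |C1 s|) (fun s _ => abs_nonneg _)
      (Finset.mem_univ s)
    have h4 := le_abs_self (C1 s)
    have h5 := le_abs_self (Real.log K)
    linarith
  have hT0 : ∀ r, 1 ≤ r → 0 ≤ Tf g r + D1 := fun r hr =>
    (characteristic_nonneg hr).trans (hTr r hr 0)
  -- the coefficients
  set D2 : ℝ := ∑ j, ∑ α ∈ Ad (m + 1) 1, log⁺ ‖∑ s, (α s : ℂ) * A⁻¹ j (σ s)‖ with hD2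
  have hchar : ∀ r, ∑ j, ∑ α ∈ Ad (m + 1) 1, characteristic (c.a j α) ⊤ r = D2 := by
    intro r
    refine Finset.sum_congr rfl fun j _ => Finset.sum_congr rfl fun α _ => ?_
    exact Pool.Agent.N131.SR.char_const _ r
  have hD2 : 0 ≤ D2 := Finset.sum_nonneg fun j _ => Finset.sum_nonneg fun α _ => posLog_nonneg
  set δ : ℝ := 1 / (2 * C' * (m + 1)) with hδ
  have hδ0 : 0 < δ := by positivity
  set D3 : ℝ := C' * (δ * (1 + (m + 1) * D1) - 1 - Real.log δ) with hD3
  have hXs : ∀ r, 1 ≤ r → 0 ≤ ∑ i ∈ I, Nb (y i) r := fun r hr =>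
    Finset.sum_nonneg fun i _ => Nb_nonneg hr
  refine absorb (S := Tf g) (X := fun r => ∑ i ∈ I, Nb (y i) r) (C := 2 * C')
    (c := 2 * (C' * D2 + D3)) hE (fun r hr hrE => ?_) hXs
  have h1 := hb r hr hrE
  have h2 := (c.parts hr).1
  have h3 := Real.log_nonneg hr
  have hCC : C m ≤ C' := by
    have h4 := Finset.single_le_sum (f := fun m => |C m|) (fun m _ => abs_nonneg _) hmn
    have h5 := le_abs_self (C m)
    linarith
  have h4 : Tf g r ≤ C' * c.X r := h1.trans (mul_le_mul_of_nonneg_right hCC (h3.trans h2))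
  have h5 : c.X r = ∑ i ∈ I, Nb (y i) r + D2 + Real.log r +
      Real.log (1 + ∑ s, characteristic (fun z => k s z / k 0 z) ⊤ r) := by
    unfold Dat.X
    rw [hchar]
    congr 3
    rw [← Finset.sum_coe_sort I]
    exact Equiv.sum_comp σ fun i : I => Nb (y i) r
  have h6 : Real.log (1 + ∑ s, characteristic (fun z => k s z / k 0 z) ⊤ r) ≤
      Real.log (1 + (m + 1) * (Tf g r + D1)) := by
    have h7 : ∑ s, characteristic (fun z => k s z / k 0 z) ⊤ r ≤ (m + 1) * (Tf g r + D1) := by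
      refine (Finset.sum_le_sum fun s _ => hTr r hr s).trans ?_
      rw [Finset.sum_const, Finset.card_univ, Fintype.card_fin, nsmul_eq_mul]
      push_cast
      exact le_rfl
    have h8 : 0 ≤ ∑ s, characteristic (fun z => k s z / k 0 z) ⊤ r :=
      Finset.sum_nonneg fun s _ => characteristic_nonneg hr
    exact Real.log_le_log (by linarith) (by linarith)
  have h7 := log_lin hδ0 (y := (m + 1) * (Tf g r + D1)) (mul_nonneg (by positivity) (hT0 r hr))
  have h8 : C' * (δ * (1 + (m + 1) * (Tf g r + D1)) - 1 - Real.log δ) = Tf g r / 2 + D3 := by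
    have h9 : C' * (δ * ((m + 1) * Tf g r)) = Tf g r / 2 := by
      rw [hδ]
      field_simp
    rw [hD3]
    linear_combination h9
  have h9 : C' * Real.log (1 + ∑ s, characteristic (fun z => k s z / k 0 z) ⊤ r) ≤
      Tf g r / 2 + D3 := by
    rw [← h8]
    exact mul_le_mul_of_nonneg_left (h6.trans h7) (by linarith)
  rw [h5] at h4
  have h10 : Tf g r ≤ C' * (∑ i ∈ I, Nb (y i) r + D2 + Real.log r) + (Tf g r / 2 + D3) := by
    refine h4.trans ?_
    rw [mul_add]
    linarith
  change Tf g r ≤ 2 * C' * (∑ i ∈ I, Nb (y i) r + Real.log r) + 2 * (C' * D2 + D3)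
  linarith

end Pool.Agent.H60K
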