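import Mathlib
import Pool.Agent.H60K.Shyp
import Pool.Agent.V1153.GH.Cst

/-!
Curves which are highly ramified over hyperplanes.
-/

set_option autoImplicit false

namespace Pool.Agent.H60K

open MeasureTheory Set Filter Topology Metric Real ValueDistribution MeromorphicOn Function
open Asymptotics MvPolynomial Pool.Agent.V1153.UG
open Pool.Agent.N131.SU
open Function.locallyFinsuppWithin
open Pool.Agent.N131.SR (Tf Nb Nb_nonneg ratio_le f_avg curve_int curve_cont curve_pos Nb_eq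
  zeros_finite)

theorem Nb_le_count {f : ℂ → ℂ} (hd : Differentiable ℂ f) (hn : ∃ z, f z ≠ 0) {M : ℕ}
    (hM : ∀ z, f z = 0 → (M : ℕ∞) ≤ analyticOrderAt f z) {r : ℝ} (hr : 1 ≤ r) :
    M * Nb f r ≤ ValueDistribution.logCounting f 0 r := by
  classical
  have hr0 : 0 < r := by linarith
  have habs : |r| = r := abs_of_pos hr0
  have hm : Meromorphic f := fun z => (hd.analyticAt z).meromorphicAt
  set F1 := (zeros_finite hd hn r).toFinset with hF1
  have hF1' : ∀ z, z ∈ F1 ↔ f z = 0 ∧ ‖z‖ ≤ r := fun z => by rw [hF1, Set.Finite.mem_toFinset]; rfl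
  rw [Nb_eq r F1 hF1', logCounting_zero]
  set D : locallyFinsupp ℂ ℤ := (divisor f univ)⁺ with hD
  have hDz : ∀ z, D z = ((meromorphicOrderAt f z).untop₀)⁺ := by
    intro z
    change (divisor f univ z)⁺ = _
    rw [divisor_apply hm.meromorphicOn (mem_univ z)]
  have hord : ∀ z, analyticOrderAt f z ≠ ⊤ := by
    intro z h
    rw [analyticOrderAt_eq_top] at h
    obtain ⟨w, hw⟩ := hn
    have h3 : AnalyticOnNhd ℂ f univ := fun z _ => hd.analyticAt z
    exact hw (h3.eqOn_zero_of_preconnected_of_eventuallyEq_zero isPreconnected_univ (mem_univ z) h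
      (mem_univ w))
  have hDa : ∀ z, (D z : ℝ) = ((analyticOrderAt f z).toNat : ℝ) := by
    intro z
    rw [hDz, (hd.analyticAt z).meromorphicOrderAt_eq]
    have h1 := hord z
    lift analyticOrderAt f z to ℕ using h1 with n
    simp
  have hD1 : ∀ z, f z = 0 → (M : ℝ) ≤ D z := by
    intro z hz
    rw [hDa]
    have h1 := hord z
    have h2 := hM z hz
    lift analyticOrderAt f z to ℕ using h1 with n
    have h3 : M ≤ n := by exact_mod_cast h2
    simpa using h3
  have hD0 : ∀ z, f z ≠ 0 → D z = 0 := by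
    intro z hz
    have h1 : (D z : ℝ) = 0 := by
      rw [hDa, (hd.analyticAt z).analyticOrderAt_eq_zero.2 hz]
      simp
    exact_mod_cast h1
  have hlog : ∀ z : ℂ, ‖z‖ ≤ r → 0 ≤ log (r * ‖z‖⁻¹) := by
    intro z hz
    rcases eq_or_ne z 0 with rfl | h
    · simp
    · apply Real.log_nonneg
      have : 0 < ‖z‖ := norm_pos_iff.2 h
      rw [← div_eq_mul_inv, one_le_div this]
      exact hz
  have e1 : locallyFinsuppWithin.logCounting D r =
      ∑ z ∈ F1, (D z : ℝ) * log (r * ‖z‖⁻¹) + (D 0) * log r := by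
    change ∑ᶠ z, (toClosedBall r D z : ℝ) * log (r * ‖z‖⁻¹) + (D 0) * log r = _
    congr 1
    rw [finsum_eq_sum_of_support_subset (s := F1)]
    · apply Finset.sum_congr rfl
      intro z hz'
      have hz2 : ‖z‖ ≤ r := ((hF1' z).1 hz').2
      rw [toClosedBall_eval_within _ (by rw [habs, mem_closedBall_zero_iff]; exact hz2)]
    · intro z hz'
      have hzb : z ∈ closedBall (0 : ℂ) |r| := by
        by_contra hcon
        apply hz'
        simp only
        rw [apply_eq_zero_of_notMem _ hcon]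
        simp
      have hz2 : ‖z‖ ≤ r := by rwa [habs, mem_closedBall_zero_iff] at hzb
      have hz3 : D z ≠ 0 := by
        intro h0
        apply hz'
        simp only
        rw [toClosedBall_eval_within _ hzb, h0]
        simp
      refine (hF1' z).2 ⟨?_, hz2⟩
      by_contra h3
      exact hz3 (hD0 z h3)
  rw [e1, mul_add, Finset.mul_sum]
  refine add_le_add (Finset.sum_le_sum fun z hz => ?_) ?_
  · exact mul_le_mul_of_nonneg_right (hD1 z ((hF1' z).1 hz).1) (hlog z ((hF1' z).1 hz).2)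
  · rw [← mul_assoc]
    refine mul_le_mul_of_nonneg_right ?_ (Real.log_nonneg hr)
    by_cases h0 : f 0 = 0
    · rw [Set.indicator_of_mem (show (0 : ℂ) ∈ {z : ℂ | f z = 0} from h0)]
      simpa using hD1 0 h0
    · rw [Set.indicator_of_notMem (show (0 : ℂ) ∉ {z : ℂ | f z = 0} from h0), hD0 0 h0]
      simp

variable {n : ℕ} {g : Fin (n + 1) → ℂ → ℂ}

theorem count_le_Tf (hg : ∀ j, Differentiable ℂ (g j)) (g0 : ∀ z, ∃ j, g j z ≠ 0)
    (v : Fin (n + 1) → ℂ) (hv : ∃ z, ∑ j, v j * g j z ≠ 0) : ∃ C : ℝ, ∀ r, 1 ≤ r →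
      ValueDistribution.logCounting (fun z => ∑ j, v j * g j z) 0 r ≤ Tf g r + C := by
  set y : ℂ → ℂ := fun z => ∑ j, v j * g j z with hy
  have hyd : Differentiable ℂ y := Differentiable.fun_sum fun j _ => (hg j).const_mul _
  have hym : Meromorphic y := fun z => (hyd.analyticAt z).meromorphicAt
  have hne : ∀ᶠ z in codiscrete ℂ, y z ≠ 0 := diff_ne hyd hv
  obtain ⟨K, hK0, hK⟩ : ∃ K : ℝ, 0 < K ∧ ∀ z, ‖y z‖ ≤ K * ‖(fun j => g j z : Fin (n + 1) → ℂ)‖ := by
    refine ⟨∑ j, ‖v j‖ + 1, by positivity, fun z => ?_⟩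
    refine (norm_sum_le _ _).trans ?_
    have h1 : ∀ j ∈ (Finset.univ : Finset (Fin (n + 1))), ‖v j * g j z‖ ≤
        ‖v j‖ * ‖(fun j => g j z : Fin (n + 1) → ℂ)‖ := by
      intro j _
      rw [norm_mul]
      exact mul_le_mul_of_nonneg_left (norm_le_pi_norm (fun j => g j z : Fin (n + 1) → ℂ) j)
        (norm_nonneg _)
    refine (Finset.sum_le_sum h1).trans ?_
    rw [← Finset.sum_mul]
    exact mul_le_mul_of_nonneg_right (by linarith) (norm_nonneg _)
  refine ⟨Real.log K - log ‖meromorphicTrailingCoeffAt y 0‖, fun r hr => ?_⟩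
  have hr0 : r ≠ 0 := by positivity
  have h1 : circleAverage (fun z => Real.log ‖y z‖) 0 r =
      ValueDistribution.logCounting y 0 r + log ‖meromorphicTrailingCoeffAt y 0‖ :=
    f_avg (N := 0) (f := fun _ => y) (fun _ => hyd) (l := 0) hr
  have h2 : circleAverage (fun z => Real.log ‖y z‖) 0 r ≤ Tf g r + Real.log K := by
    have h3 : Tf g r + Real.log K =
        circleAverage (fun z => Real.log ‖(fun j => g j z : Fin (n + 1) → ℂ)‖ + Real.log K) 0 r := by
      rw [circleAverage_fun_add (curve_int hg g0 r) (circleIntegrable_const _ _ _),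
        circleAverage_const]
      rfl
    rw [h3]
    apply Pool.Agent.Helper160.Nev.circleAverage_mono_codiscrete hr0
    · exact hym.meromorphicOn.circleIntegrable_log_norm
    · exact (curve_int hg g0 r).add (circleIntegrable_const _ _ _)
    · have h4 : ∀ᶠ z in codiscreteWithin (sphere (0 : ℂ) |r|), y z ≠ 0 :=
        hne.filter_mono (codiscreteWithin_mono (subset_univ _))
      filter_upwards [h4] with z hz
      have h5 := Real.log_le_log (norm_pos_iff.2 hz) (hK z)
      rw [Real.log_mul hK0.ne' (curve_pos (f := g) g0 z).ne'] at h5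
      linarith
  linarith

/-- many zeros -/
theorem Nb_ge {f : ℂ → ℂ} (hd : Differentiable ℂ f) (hn : ∃ z, f z ≠ 0) (S : Finset ℂ)
    (hS : ∀ z ∈ S, f z = 0 ∧ z ≠ 0) : ∃ C : ℝ, ∀ r, C ≤ r → 1 ≤ r ∧
      S.card * Real.log r - C ≤ Nb f r := by
  classical
  refine ⟨∑ z ∈ S, (‖z‖ + |Real.log ‖z‖|) + 1, fun r hr => ?_⟩
  have h0 : 0 ≤ ∑ z ∈ S, (‖z‖ + |Real.log ‖z‖|) := Finset.sum_nonneg fun z _ => by positivity
  have hr1 : 1 ≤ r := by linarith
  have hr0 : 0 < r := by linarith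
  refine ⟨hr1, ?_⟩
  set F1 := (zeros_finite hd hn r).toFinset with hF1
  have hF1' : ∀ z, z ∈ F1 ↔ f z = 0 ∧ ‖z‖ ≤ r := fun z => by rw [hF1, Set.Finite.mem_toFinset]; rfl
  rw [Nb_eq r F1 hF1']
  have h1 : ∀ z ∈ S, ‖z‖ ≤ r := by
    intro z hz
    have h2 := Finset.single_le_sum (f := fun z : ℂ => ‖z‖ + |Real.log ‖z‖|)
      (fun z _ => by positivity) hz
    have h3 := abs_nonneg (Real.log ‖z‖)
    linarith
  have hsub : S ⊆ F1 := fun z hz => (hF1' z).2 ⟨(hS z hz).1, h1 z hz⟩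
  have hlog : ∀ z ∈ F1, 0 ≤ Real.log (r * ‖z‖⁻¹) := by
    intro z hz
    rcases eq_or_ne z 0 with rfl | h
    · simp
    · apply Real.log_nonneg
      have : 0 < ‖z‖ := norm_pos_iff.2 h
      rw [← div_eq_mul_inv, one_le_div this]
      exact ((hF1' z).1 hz).2
  have h2 : ∑ z ∈ S, Real.log (r * ‖z‖⁻¹) ≤ ∑ z ∈ F1, Real.log (r * ‖z‖⁻¹) :=
    Finset.sum_le_sum_of_subset_of_nonneg hsub fun z hz _ => hlog z hz
  have h3 : ∑ z ∈ S, Real.log (r * ‖z‖⁻¹) = S.card * Real.log r - ∑ z ∈ S, Real.log ‖z‖ := by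
    have h4 : ∀ z ∈ S, Real.log (r * ‖z‖⁻¹) = Real.log r - Real.log ‖z‖ := by
      intro z hz
      have h5 : ‖z‖ ≠ 0 := norm_ne_zero_iff.2 (hS z hz).2
      rw [Real.log_mul hr0.ne' (inv_ne_zero h5), Real.log_inv]
      ring
    rw [Finset.sum_congr rfl h4, Finset.sum_sub_distrib, Finset.sum_const, nsmul_eq_mul]
  have h4 : ∑ z ∈ S, Real.log ‖z‖ ≤ ∑ z ∈ S, (‖z‖ + |Real.log ‖z‖|) :=
    Finset.sum_le_sum fun z _ => by
      have := le_abs_self (Real.log ‖z‖)
      have := norm_nonneg z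
      linarith
  have h5 : (0 : ℝ) ≤ {z : ℂ | f z = 0}.indicator 1 0 * Real.log r :=
    mul_nonneg (Set.indicator_nonneg (fun _ _ => zero_le_one) 0) (Real.log_nonneg hr1)
  linarith

/-- periodic curves grow faster than the logarithm -/
theorem periodic_growth (hg : ∀ j, Differentiable ℂ (g j)) (g0 : ∀ z, ∃ j, g j z ≠ 0)
    {w0 w1 : ℂ} (hw0 : w0 ≠ 0) {j l : Fin (n + 1)} (hjl : g j w0 * g l w1 ≠ g l w0 * g j w1)
    (q : ℕ) : ∃ C : ℝ, ∀ r, C ≤ r → 1 ≤ r ∧
      q * Real.log r - C ≤ Tf (fun j z => g j (Complex.exp z)) r := by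
  classical
  set h : Fin (n + 1) → ℂ → ℂ := fun j z => g j (Complex.exp z) with hh
  have hhd : ∀ j, Differentiable ℂ (h j) := fun j => (hg j).comp Complex.differentiable_exp
  have h0 : ∀ z, ∃ j, h j z ≠ 0 := fun z => g0 _
  set v : Fin (n + 1) → ℂ := fun i => g j w0 * (if i = l then 1 else 0) -
    g l w0 * (if i = j then 1 else 0) with hv
  have hvs : ∀ w, ∑ i, v i * g i w = g j w0 * g l w - g l w0 * g j w := by
    intro w
    simp only [hv, sub_mul, Finset.sum_sub_distrib, mul_assoc, ite_mul, one_mul, zero_mul]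
    rw [← Finset.mul_sum, ← Finset.mul_sum, Finset.sum_ite_eq' Finset.univ l,
      Finset.sum_ite_eq' Finset.univ j]
    simp
  set f : ℂ → ℂ := fun z => ∑ i, v i * h i z with hf
  have hfd : Differentiable ℂ f := Differentiable.fun_sum fun j _ => (hhd j).const_mul _
  have hfe : ∀ z, f z = g j w0 * g l (Complex.exp z) - g l w0 * g j (Complex.exp z) :=
    fun z => hvs _
  have hfn : ∃ z, f z ≠ 0 := by
    by_contra hcon
    push Not at hcon
    -- the function `w ↦ g j w0 * g l w - g l w0 * g j w` vanishes outside zero, hence everywhere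
    have h1 : ∀ w, w ≠ 0 → g j w0 * g l w - g l w0 * g j w = 0 := by
      intro w hw
      have h2 := hcon (Complex.log w)
      rwa [hfe, Complex.exp_log hw] at h2
    have h3 : Continuous fun w => g j w0 * g l w - g l w0 * g j w :=
      ((hg l).continuous.const_mul _).sub ((hg j).continuous.const_mul _) |>.congr fun w => rfl
    have h4 : (fun w => g j w0 * g l w - g l w0 * g j w) = fun _ => 0 := by
      apply Continuous.ext_on (s := {w : ℂ | w ≠ 0}) (dense_compl_singleton 0) h3 continuous_const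
      intro w hw
      exact h1 w hw
    have h5 := congrFun h4 w1
    apply hjl
    simpa [sub_eq_zero] using h5
  -- the zeros
  set z0 := Complex.log w0 with hz0
  let S : Finset ℂ := ((Finset.range (q + 1)).image fun k : ℕ =>
    z0 + k * (2 * π * Complex.I)).filter fun z => z ≠ 0
  have hinj : Function.Injective fun k : ℕ => z0 + (k : ℂ) * (2 * π * Complex.I) := by
    intro a b hab
    have h1 : ((a : ℂ) - b) * (2 * π * Complex.I) = 0 := by
      simp only at hab
      linear_combination hab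
    have h2 : (2 * (π : ℂ) * Complex.I) ≠ 0 := Complex.two_pi_I_ne_zero
    have h3 := (mul_eq_zero.1 h1).resolve_right h2
    have h4 : (a : ℂ) = b := sub_eq_zero.1 h3
    exact_mod_cast h4
  have hcard : q ≤ S.card := by
    have h1 : ((Finset.range (q + 1)).image fun k : ℕ =>
        z0 + (k : ℂ) * (2 * π * Complex.I)).card = q + 1 := by
      rw [Finset.card_image_of_injective _ hinj, Finset.card_range]
    have h2 : ((Finset.range (q + 1)).image fun k : ℕ =>
        z0 + (k : ℂ) * (2 * π * Complex.I)).erase 0 = S := by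
      ext z
      simp only [S, Finset.mem_erase, Finset.mem_filter]
      tauto
    have h3 := Finset.pred_card_le_card_erase (s := (Finset.range (q + 1)).image fun k : ℕ =>
        z0 + (k : ℂ) * (2 * π * Complex.I)) (a := 0)
    rw [h1, h2] at h3
    omega
  have hS : ∀ z ∈ S, f z = 0 ∧ z ≠ 0 := by
    intro z hz
    obtain ⟨h1, h2⟩ := Finset.mem_filter.1 hz
    obtain ⟨k, -, rfl⟩ := Finset.mem_image.1 h1
    refine ⟨?_, h2⟩
    have h3 : Complex.exp (z0 + (k : ℂ) * (2 * π * Complex.I)) = w0 := by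
      rw [Complex.exp_add, Complex.exp_nat_mul_two_pi_mul_I, mul_one, hz0, Complex.exp_log hw0]
    rw [hfe, h3]
    ring
  obtain ⟨C1, hC1⟩ := Nb_ge hfd hfn S hS
  obtain ⟨C2, hC2⟩ := count_le_Tf hhd h0 v hfn
  refine ⟨|C1| + |C2|, fun r hr => ?_⟩
  have a1 := le_abs_self C1
  have a2 := le_abs_self C2
  have a3 := abs_nonneg C1
  have a4 := abs_nonneg C2
  obtain ⟨hr1, h1⟩ := hC1 r (by linarith)
  refine ⟨hr1, ?_⟩
  have h2 := hC2 r hr1
  have h3 := Nb_le_count (M := 1) hfd hfn (fun z hz => by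
    have h4 : analyticOrderAt f z ≠ 0 := (hfd.analyticAt z).analyticOrderAt_ne_zero.2 hz
    exact_mod_cast Order.one_le_iff_ne_zero.2 h4) hr1
  have h5 : (q : ℝ) * Real.log r ≤ S.card * Real.log r :=
    mul_le_mul_of_nonneg_right (by exact_mod_cast hcard) (Real.log_nonneg hr1)
  push_cast at h3
  linarith

/-- there are large radii outside sets of finite measure -/
theorem exists_large {E : Set ℝ} (hE : volume E < ⊤) (R : ℝ) : ∃ r, R ≤ r ∧ r ∉ E := by
  by_contra hcon
  push Not at hcon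
  have h1 : Ici R ⊆ E := fun r hr => hcon r hr
  have h2 := (measure_mono h1).trans_lt hE
  rw [Real.volume_Ici] at h2
  exact lt_irrefl _ h2

/-- **Highly ramified curves are constant.** -/
theorem ram_const (hVEC : H60S.S_VEC) (hIND : H60S.S_IND) (hGMC : H60S.S_GMC) (n d : ℕ) :
    ∃ (B M : ℕ), ∀ F : MvPolynomial (Fin (n + 1)) ℂ, F.IsHomogeneous d →
      (∀ T, ¬ GmBdd (Ideal.span {F}) 1 B T) → ∀ g : Fin (n + 1) → ℂ → ℂ,
      (∀ j, Differentiable ℂ (g j)) → (∀ z, ∃ j, g j z ≠ 0) → (∀ z, eval (fun j => g j z) F = 0) →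
      ∀ A : Matrix (Fin (n + 1)) (Fin (n + 1)) ℂ, IsUnit A.det →
      (∀ i, (∃ z, ∑ j, A i j * g j z ≠ 0) → ∀ z, ∑ j, A i j * g j z = 0 →
        (M : ℕ∞) ≤ analyticOrderAt (fun z => ∑ j, A i j * g j z) z) →
      ∀ w0 w1 : ℂ, w0 ≠ 0 → ∀ j l, g j w0 * g l w1 = g l w0 * g j w1 := by
  classical
  obtain ⟨B, C, hC0, hC⟩ := hyp_bound hVEC hIND hGMC n d
  refine ⟨B, ⌈2 * C * (n + 1)⌉₊ + 1, fun F hF hno g hg g0 gF A hA hram w0 w1 hw0 j l => ?_⟩
  set M : ℕ := ⌈2 * C * (n + 1)⌉₊ + 1 with hM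
  by_contra hjl
  set h : Fin (n + 1) → ℂ → ℂ := fun j z => g j (Complex.exp z) with hh
  have hhd : ∀ j, Differentiable ℂ (h j) := fun j => (hg j).comp Complex.differentiable_exp
  have h0 : ∀ z, ∃ j, h j z ≠ 0 := fun z => g0 _
  let I : Finset (Fin (n + 1)) := Finset.univ.filter fun i => ∃ z, ∑ j, A i j * h j z ≠ 0
  have hI : ∀ i, i ∈ I ↔ ∃ z, ∑ j, A i j * h j z ≠ 0 := fun i => by
    simp only [I, Finset.mem_filter, Finset.mem_univ, true_and]
  obtain ⟨E, hE, hb⟩ := hC F hF hno h hhd h0 (fun z => gF _) A hA I hI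
  have hM1 : 2 * C * (n + 1) ≤ M := by
    have h1 := Nat.le_ceil (2 * C * (n + 1))
    rw [hM]
    push_cast
    linarith
  have hM0 : (0 : ℝ) < M := by
    rw [hM]
    positivity
  -- the counting functions
  have hcnt : ∀ i, ∃ c : ℝ, i ∈ I → ∀ r, 1 ≤ r →
      M * Nb (fun z => ∑ j, A i j * h j z) r ≤ Tf h r + c := by
    intro i
    by_cases hi : i ∈ I
    · have hi' := (hI i).1 hi
      obtain ⟨c, hc⟩ := count_le_Tf hhd h0 (A i) hi'
      refine ⟨c, fun _ r hr => ?_⟩
      refine (Nb_le_count (Differentiable.fun_sum fun j _ => (hhd j).const_mul _) hi' ?_ hr).trans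
        (hc r hr)
      intro z hz
      obtain ⟨z', hz'⟩ := hi'
      have h1 := hram i ⟨Complex.exp z', hz'⟩ (Complex.exp z) hz
      have h2 := analyticOrderAt_comp_of_deriv_ne_zero (f := fun z => ∑ j, A i j * g j z)
        (g := Complex.exp) (z₀ := z) (Complex.differentiable_exp.analyticAt z)
        (by rw [Complex.deriv_exp]; exact Complex.exp_ne_zero z)
      rw [← h2] at h1
      exact h1
    · exact ⟨0, fun h => absurd h hi⟩
  choose c hc using hcnt
  set c' : ℝ := ∑ i, |c i| with hc'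
  have hc'0 : 0 ≤ c' := Finset.sum_nonneg fun i _ => abs_nonneg _
  obtain ⟨q, hq⟩ := exists_nat_gt (2 * C)
  obtain ⟨C3, hC3⟩ := periodic_growth hg g0 hw0 hjl q
  set D : ℝ := C3 + c' with hD
  obtain ⟨r, hr, hrE⟩ := exists_large hE (max (max C3 1) (Real.exp ((|D| + |C3|) / (q - 2 * C) + 1)))
  have hr1 : C3 ≤ r := (le_max_left _ _).trans ((le_max_left _ _).trans hr)
  have hr2 : 1 ≤ r := (le_max_right _ _).trans ((le_max_left _ _).trans hr)
  have hr3 : Real.exp ((|D| + |C3|) / (q - 2 * C) + 1) ≤ r := (le_max_right _ _).trans hr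
  have hlog : (|D| + |C3|) / (q - 2 * C) + 1 ≤ Real.log r := by
    rw [← Real.log_exp ((|D| + |C3|) / (q - 2 * C) + 1)]
    exact Real.log_le_log (Real.exp_pos _) hr3
  have hq0 : 0 < (q : ℝ) - 2 * C := by linarith
  have hlog2 : |D| + |C3| + ((q : ℝ) - 2 * C) ≤ ((q : ℝ) - 2 * C) * Real.log r := by
    have h1 := mul_le_mul_of_nonneg_left hlog hq0.le
    have h2 : ((q : ℝ) - 2 * C) * ((|D| + |C3|) / (q - 2 * C) + 1) =
        |D| + |C3| + ((q : ℝ) - 2 * C) := by
      field_simp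
    linarith
  have h1 := (hC3 r hr1).2
  have h2 := hb r hr2 hrE
  change q * Real.log r - C3 ≤ Tf h r at h1
  have a1 := le_abs_self D
  have a2 := le_abs_self C3
  have a3 := Real.log_nonneg hr2
  have hT0 : 0 ≤ Tf h r := by
    have : 0 ≤ 2 * C * Real.log r := by positivity
    nlinarith [abs_nonneg D, abs_nonneg C3]
  -- the upper bound
  have h3 : M * ∑ i ∈ I, Nb (fun z => ∑ j, A i j * h j z) r ≤ (n + 1) * Tf h r + c' := by
    rw [Finset.mul_sum]
    have h4 : ∀ i ∈ I, M * Nb (fun z => ∑ j, A i j * h j z) r ≤ Tf h r + |c i| := fun i hi =>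
      (hc i hi r hr2).trans (by linarith [le_abs_self (c i)])
    refine (Finset.sum_le_sum h4).trans ?_
    refine (Finset.sum_le_sum_of_subset_of_nonneg (Finset.subset_univ I)
      fun i _ _ => add_nonneg hT0 (abs_nonneg _)).trans ?_
    rw [Finset.sum_add_distrib, Finset.sum_const, Finset.card_univ, Fintype.card_fin, nsmul_eq_mul]
    push_cast
    exact le_rfl
  have hS0 : 0 ≤ ∑ i ∈ I, Nb (fun z => ∑ j, A i j * h j z) r :=
    Finset.sum_nonneg fun i _ => Nb_nonneg hr2
  set S : ℝ := ∑ i ∈ I, Nb (fun z => ∑ j, A i j * h j z) r with hS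
  -- `2 C (n + 1) S ≤ M S ≤ (n + 1) T + c'`
  have h5 : 2 * C * (n + 1) * S ≤ (n + 1) * Tf h r + c' :=
    (mul_le_mul_of_nonneg_right hM1 hS0).trans h3
  have h6 : 2 * C * S ≤ Tf h r + c' := by
    have hn1 : (1 : ℝ) ≤ (n : ℝ) + 1 := by
      have : (0 : ℝ) ≤ n := Nat.cast_nonneg n
      linarith
    have h7 : ((n : ℝ) + 1) * (2 * C * S) ≤ (n + 1) * (Tf h r + c') := by
      have h8 : c' ≤ (n + 1) * c' := by nlinarith
      nlinarith
    exact le_of_mul_le_mul_left h7 (by linarith)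
  have h7 : Tf h r ≤ c' + 2 * C * Real.log r := by
    have h8 : C * (S + Real.log r) = (2 * C * S) / 2 + C * Real.log r := by ring
    rw [h8] at h2
    linarith
  have h8 : ((q : ℝ) - 2 * C) * Real.log r ≤ D := by
    rw [hD, sub_mul]
    linarith
  have h9 := abs_nonneg C3
  linarith

end Pool.Agent.H60K
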