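import Mathlib
import Pool.Agent.H60K.Sram
import Pool.Agent.H60S.Stm2

/-!
The second main theorem without the logarithm of the radius; curves which are highly ramified over
hyperplanes outside few points.
-/

set_option autoImplicit false

namespace Pool.Agent.H60K

open MeasureTheory Set Filter Topology Metric Real ValueDistribution MeromorphicOn Function
open Asymptotics MvPolynomial Pool.Agent.V1153.UG
open Pool.Agent.N131.SU
open Function.locallyFinsuppWithin
open Pool.Agent.N131.SR (Tf Nb Nb_nonneg ratio_le f_avg curve_int curve_cont curve_pos Nb_eq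
  zeros_finite)

/-- curves of logarithmic growth are constant -/
theorem log_const (hRAT : H60S.S_RAT) {n d B : ℕ} {D : ℝ} (hD : 0 ≤ D) (hB : 8 * D ≤ B)
    {F : MvPolynomial (Fin (n + 1)) ℂ} (hF : F.IsHomogeneous d)
    (hno : ∀ T, ¬ GmBdd (Ideal.span {F}) 1 B T) {g : Fin (n + 1) → ℂ → ℂ}
    (hg : ∀ j, Differentiable ℂ (g j)) (g0 : ∀ z, ∃ j, g j z ≠ 0)
    (gF : ∀ z, eval (fun j => g j z) F = 0) {C : ℝ}
    (h : ∀ R : ℝ, ∃ r, R ≤ r ∧ Tf g r ≤ D * Real.log r + C) (s t : ℂ) (j k : Fin (n + 1)) :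
    g j s * g k t = g k s * g j t := by
  obtain ⟨q, v, hq, hv, hgq⟩ := hRAT n g hg g0 D C hD h
  by_contra hcon
  refine hno q ⟨fun j => ?_, ?_, ⟨1, 0, one_ne_zero, by simp⟩, ⟨s, t, j, k, ?_⟩⟩
  · have h1 := (hq j).trans hB
    exact_mod_cast h1
  · have h1 : aeval q F = 0 := by
      apply Polynomial.funext
      intro z
      have h3 : Polynomial.eval z (aeval q F) = eval (fun j => (q j).eval z) F := by
        rw [aeval_def, ← Polynomial.coe_evalRingHom, hom_eval₂]
        rw [MvPolynomial.eval, coe_eval₂Hom]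
        congr 1
        ext x
        simp
      rw [h3, Polynomial.eval_zero]
      have h4 := gF z
      have h5 : (fun j => g j z) = fun j => v z * (q j).eval z := funext fun j => hgq j z
      rw [h5, eval_Ad hF] at h4
      rw [eval_Ad hF]
      have h6 : ∀ β ∈ Ad (n + 1) d, coeff β F * ∏ j, (v z * (q j).eval z) ^ β j =
          v z ^ d * (coeff β F * ∏ j, (q j).eval z ^ β j) := by
        intro β hβ
        simp only [mul_pow, Finset.prod_mul_distrib]
        rw [Finset.prod_pow_eq_pow_sum, mem_Ad.1 hβ]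
        ring
      rw [Finset.sum_congr rfl h6, ← Finset.mul_sum] at h4
      exact (mul_eq_zero.1 h4).resolve_left (pow_ne_zero _ (hv z))
    intro G hG _
    have h2 : Ideal.span {F} ≤ RingHom.ker
        (aeval q : MvPolynomial (Fin (n + 1)) ℂ →ₐ[ℂ] _) := by
      rw [Ideal.span_le, Set.singleton_subset_iff]
      exact h1
    exact h2 hG
  · intro h1
    apply hcon
    rw [hgq, hgq, hgq, hgq]
    linear_combination (v s * v t) * h1

/-- **The second main theorem.** -/
theorem smt (hVEC : H60S.S_VEC) (hIND : H60S.S_IND) (hGMC : H60S.S_GMC) (hRAT : H60S.S_RAT)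
    (n d : ℕ) :
    ∃ (B : ℕ) (C : ℝ), 0 ≤ C ∧ ∀ F : MvPolynomial (Fin (n + 1)) ℂ, F.IsHomogeneous d →
      (∀ T, ¬ GmBdd (Ideal.span {F}) 1 B T) → ∀ g : Fin (n + 1) → ℂ → ℂ,
      (∀ j, Differentiable ℂ (g j)) → (∀ z, ∃ j, g j z ≠ 0) → (∀ z, eval (fun j => g j z) F = 0) →
      (∃ s t j k, g j s * g k t ≠ g k s * g j t) →
      ∀ A : Matrix (Fin (n + 1)) (Fin (n + 1)) ℂ, IsUnit A.det →
      ∀ I : Finset (Fin (n + 1)), (∀ i, i ∈ I ↔ ∃ z, ∑ j, A i j * g j z ≠ 0) →
      ∃ E : Set ℝ, volume E < ⊤ ∧ ∀ r, 1 ≤ r → r ∉ E →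
        Tf g r ≤ C * ∑ i ∈ I, Nb (fun z => ∑ j, A i j * g j z) r := by
  obtain ⟨B, C, hC0, hC⟩ := hyp_bound hVEC hIND hGMC n d
  set D : ℝ := 2 * C + 1 with hD
  refine ⟨max B ⌈8 * D⌉₊, 2 * C, by positivity, fun F hF hno g hg g0 gF hnc A hA I hI => ?_⟩
  have hno1 : ∀ T, ¬ GmBdd (Ideal.span {F}) 1 B T := fun T hT =>
    hno T ⟨fun j => (hT.deg j).trans (le_max_left _ _), hT.mem, hT.off, hT.nc⟩
  obtain ⟨E, hE, hb⟩ := hC F hF hno1 g hg g0 gF A hA I hI
  obtain ⟨R, hR⟩ : ∃ R : ℝ, ∀ r, R ≤ r → D * Real.log r < Tf g r := by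
    by_contra hcon
    push Not at hcon
    obtain ⟨s, t, j, k, hne⟩ := hnc
    apply hne
    refine log_const hRAT (D := D) (C := 0) (by positivity) ?_ hF hno hg g0 gF (fun R => ?_) s t j k
    · have h1 := Nat.le_ceil (8 * D)
      have h2 : ((⌈8 * D⌉₊ : ℕ) : ℝ) ≤ ((max B ⌈8 * D⌉₊ : ℕ) : ℝ) := by
        exact_mod_cast le_max_right _ _
      exact h1.trans h2
    · obtain ⟨r, h1, h2⟩ := hcon R
      exact ⟨r, h1, by linarith⟩
  refine ⟨E ∪ Icc 1 R, ?_, fun r hr hrE => ?_⟩
  · refine (measure_union_le _ _).trans_lt (ENNReal.add_lt_top.2 ⟨hE, ?_⟩)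
    rw [Real.volume_Icc]
    exact ENNReal.ofReal_lt_top
  · have h1 := hb r hr fun h => hrE (Or.inl h)
    have h2 : R < r := by
      by_contra hcon
      exact hrE (Or.inr ⟨hr, not_lt.1 hcon⟩)
    have h3 := hR r h2.le
    have h4 := Real.log_nonneg hr
    rw [hD] at h3
    have h5 : C * Real.log r ≤ Tf g r / 2 := by linarith
    rw [mul_add] at h1
    linarith

/-- **The second main theorem** for curves given by forms with meromorphic coefficients. -/
theorem gen_bound (hVEC : H60S.S_VEC) (hIND : H60S.S_IND) (hGMC : H60S.S_GMC) (hRAT : H60S.S_RAT)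
    (n m d e : ℕ) : ∃ (B : ℕ) (C : ℝ), 0 ≤ C ∧
      ∀ c : Dat n m d e (fun F => ∀ T, ¬ GmBdd (Ideal.span {F}) 1 B T),
      (∃ s t j k, c.g j s * c.g k t ≠ c.g k s * c.g j t) →
      ∃ E : Set ℝ, volume E < ⊤ ∧ ∀ r, 1 ≤ r → r ∉ E → Tf c.g r ≤
        C * (∑ i, Nb (c.k i) r + ∑ j, ∑ α ∈ Ad (m + 1) e, characteristic (c.a j α) ⊤ r +
          Real.log (1 + ∑ i, characteristic (fun z => c.k i z / c.k 0 z) ⊤ r)) := by
  obtain ⟨B, C, hC⟩ := main_bound hVEC hIND hGMC n m d e
  set D : ℝ := 2 * |C| + 1 with hD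
  refine ⟨max B ⌈8 * D⌉₊, 2 * |C|, by positivity, fun c hnc => ?_⟩
  have hno1 : ∀ T, ¬ GmBdd (Ideal.span {c.F}) 1 B T := fun T hT =>
    c.good T ⟨fun j => (hT.deg j).trans (le_max_left _ _), hT.mem, hT.off, hT.nc⟩
  let c' : Dat n m d e (fun F => ∀ T, ¬ GmBdd (Ideal.span {F}) 1 B T) :=
    { F := c.F, hF := c.hF, good := hno1, g := c.g, hg := c.hg, g0 := c.g0, gF := c.gF, k := c.k,
      hk := c.hk, k0 := c.k0, a := c.a, ha := c.ha, hu := c.hu }
  obtain ⟨E, hE, hb⟩ := hC c'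
  obtain ⟨R, hR⟩ : ∃ R : ℝ, ∀ r, R ≤ r → D * Real.log r < Tf c.g r := by
    by_contra hcon
    push Not at hcon
    obtain ⟨s, t, j, k, hne⟩ := hnc
    apply hne
    refine log_const hRAT (D := D) (C := 0) (by positivity) ?_ c.hF c.good c.hg c.g0 c.gF
      (fun R => ?_) s t j k
    · have h1 := Nat.le_ceil (8 * D)
      have h2 : ((⌈8 * D⌉₊ : ℕ) : ℝ) ≤ ((max B ⌈8 * D⌉₊ : ℕ) : ℝ) := by
        exact_mod_cast le_max_right _ _
      exact h1.trans h2
    · obtain ⟨r, h1, h2⟩ := hcon R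
      exact ⟨r, h1, by linarith⟩
  refine ⟨E ∪ Icc 1 R, ?_, fun r hr hrE => ?_⟩
  · refine (measure_union_le _ _).trans_lt (ENNReal.add_lt_top.2 ⟨hE, ?_⟩)
    rw [Real.volume_Icc]
    exact ENNReal.ofReal_lt_top
  · have h1 := hb r hr fun h => hrE (Or.inl h)
    have h2 : R < r := by
      by_contra hcon
      exact hrE (Or.inr ⟨hr, not_lt.1 hcon⟩)
    have h3 := hR r h2.le
    have h4 := Real.log_nonneg hr
    have h5 := (c'.parts hr).1
    have h6 : Tf c.g r ≤ |C| * c'.X r :=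
      h1.trans (mul_le_mul_of_nonneg_right (le_abs_self C) (h4.trans h5))
    set Y : ℝ := ∑ i, Nb (c.k i) r + ∑ j, ∑ α ∈ Ad (m + 1) e, characteristic (c.a j α) ⊤ r +
          Real.log (1 + ∑ i, characteristic (fun z => c.k i z / c.k 0 z) ⊤ r) with hY
    have h7 : c'.X r = Y + Real.log r := by
      unfold Dat.X
      rw [hY]
      ring
    have h9 : |C| * c'.X r = |C| * Y + |C| * Real.log r := by
      rw [h7]
      ring
    have h3' : (2 * |C| + 1) * Real.log r < Tf c.g r := h3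
    have h8 : |C| * Real.log r ≤ Tf c.g r / 2 := by linarith
    linarith

/-- counting functions outside finite sets -/
theorem Nb_split {f : ℂ → ℂ} (hd : Differentiable ℂ f) (hn : ∃ z, f z ≠ 0) (S : Finset ℂ) {M : ℕ}
    (hM : ∀ z, z ∉ S → f z = 0 → (M : ℕ∞) ≤ analyticOrderAt f z) : ∃ c : ℝ, ∀ r, 1 ≤ r →
    M * Nb f r ≤ M * (S.card * Real.log r + c) + ValueDistribution.logCounting f 0 r := by
  classical
  refine ⟨∑ z ∈ S, |Real.log ‖z‖|, fun r hr => ?_⟩
  have hr0 : 0 < r := by linarith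
  have habs : |r| = r := abs_of_pos hr0
  have hm : Meromorphic f := fun z => (hd.analyticAt z).meromorphicAt
  set F1 := (zeros_finite hd hn r).toFinset with hF1
  have hF1' : ∀ z, z ∈ F1 ↔ f z = 0 ∧ ‖z‖ ≤ r := fun z => by rw [hF1, Set.Finite.mem_toFinset]; rfl
  rw [Nb_eq r F1 hF1', logCounting_zero]
  set D : locallyFinsupp ℂ ℤ := (divisor f univ)⁺ with hD
  have hDz : ∀ z, D z = ((meromorphicOrderAt f z).untop₀)⁺ := by
    intro z
    change (divisor f univ z)⁺ = _
    rw [divisor_apply hm.meromorphicOn (mem_univ z)]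
  have hord : ∀ z, analyticOrderAt f z ≠ ⊤ := by
    intro z h
    rw [analyticOrderAt_eq_top] at h
    obtain ⟨w, hw⟩ := hn
    have h3 : AnalyticOnNhd ℂ f univ := fun z _ => hd.analyticAt z
    exact hw (h3.eqOn_zero_of_preconnected_of_eventuallyEq_zero isPreconnected_univ (mem_univ z) h
      (mem_univ w))
  have hDa : ∀ z, (D z : ℝ) = ((analyticOrderAt f z).toNat : ℝ) := by
    intro z
    rw [hDz, (hd.analyticAt z).meromorphicOrderAt_eq]
    have h1 := hord z
    lift analyticOrderAt f z to ℕ using h1 with n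
    simp
  have hDnn : ∀ z, (0 : ℝ) ≤ D z := fun z => by rw [hDa]; positivity
  have hD1 : ∀ z, z ∉ S → f z = 0 → (M : ℝ) ≤ D z := by
    intro z hzS hz
    rw [hDa]
    have h1 := hord z
    have h2 := hM z hzS hz
    lift analyticOrderAt f z to ℕ using h1 with n
    have h3 : M ≤ n := by exact_mod_cast h2
    simpa using h3
  have hD0 : ∀ z, f z ≠ 0 → D z = 0 := by
    intro z hz
    have h1 : (D z : ℝ) = 0 := by
      rw [hDa, (hd.analyticAt z).analyticOrderAt_eq_zero.2 hz]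
      simp
    exact_mod_cast h1
  have e1 : locallyFinsuppWithin.logCounting D r =
      ∑ z ∈ F1, (D z : ℝ) * log (r * ‖z‖⁻¹) + (D 0) * log r := by
    change ∑ᶠ z, (toClosedBall r D z : ℝ) * log (r * ‖z‖⁻¹) + (D 0) * log r = _
    congr 1
    rw [finsum_eq_sum_of_support_subset (s := F1)]
    · apply Finset.sum_congr rfl
      intro z hz'
      have hz2 : ‖z‖ ≤ r := ((hF1' z).1 hz').2
      rw [toClosedBall_eval_within _ (by rw [habs, mem_closedBall_zero_iff]; exact hz2)]
    · intro z hz'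
      have hzb : z ∈ closedBall (0 : ℂ) |r| := by
        by_contra hcon
        apply hz'
        simp only
        rw [apply_eq_zero_of_notMem _ hcon]
        simp
      have hz2 : ‖z‖ ≤ r := by rwa [habs, mem_closedBall_zero_iff] at hzb
      have hz3 : D z ≠ 0 := by
        intro h0
        apply hz'
        simp only
        rw [toClosedBall_eval_within _ hzb, h0]
        simp
      refine (hF1' z).2 ⟨?_, hz2⟩
      by_contra h3
      exact hz3 (hD0 z h3)
  rw [e1]
  set ω : ℂ → ℝ := fun z => log (r * ‖z‖⁻¹) + if z = 0 then log r else 0 with hω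
  have h0F : f 0 = 0 ↔ (0 : ℂ) ∈ F1 := by
    rw [hF1' 0, norm_zero]
    exact ⟨fun h => ⟨h, hr0.le⟩, fun h => h.1⟩
  have hN : ∑ z ∈ F1, log (r * ‖z‖⁻¹) + {z : ℂ | f z = 0}.indicator 1 0 * log r =
      ∑ z ∈ F1, ω z := by
    simp only [hω]
    rw [Finset.sum_add_distrib, Finset.sum_ite_eq']
    congr 1
    by_cases h0 : f 0 = 0
    · rw [if_pos (h0F.1 h0), Set.indicator_of_mem (show (0 : ℂ) ∈ {z : ℂ | f z = 0} from h0)]
      simp
    · rw [if_neg fun h => h0 (h0F.2 h),
        Set.indicator_of_notMem (show (0 : ℂ) ∉ {z : ℂ | f z = 0} from h0)]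
      simp
  have hD' : ∑ z ∈ F1, (D z : ℝ) * log (r * ‖z‖⁻¹) + (D 0) * log r = ∑ z ∈ F1, (D z : ℝ) * ω z := by
    simp only [hω, mul_add, mul_ite, mul_zero]
    rw [Finset.sum_add_distrib, Finset.sum_ite_eq']
    congr 1
    by_cases h0 : f 0 = 0
    · rw [if_pos (h0F.1 h0)]
    · rw [if_neg fun h => h0 (h0F.2 h), hD0 0 h0]
      simp
  rw [hN, hD']
  have hω0 : ∀ z ∈ F1, 0 ≤ ω z := by
    intro z hz
    simp only [hω]
    rcases eq_or_ne z 0 with rfl | h
    · simp [Real.log_nonneg hr]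
    · rw [if_neg h, add_zero]
      apply Real.log_nonneg
      have : 0 < ‖z‖ := norm_pos_iff.2 h
      rw [← div_eq_mul_inv, one_le_div this]
      exact ((hF1' z).1 hz).2
  have hωS : ∀ z, ω z ≤ Real.log r + |Real.log ‖z‖| := by
    intro z
    simp only [hω]
    rcases eq_or_ne z 0 with rfl | h
    · simp
    · rw [if_neg h, add_zero, Real.log_mul hr0.ne' (inv_ne_zero (norm_ne_zero_iff.2 h)),
        Real.log_inv]
      have := neg_abs_le (Real.log ‖z‖)
      linarith
  rw [← Finset.sum_filter_add_sum_filter_not F1 (fun z => z ∈ S) ω, mul_add]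
  refine add_le_add ?_ ?_
  · refine mul_le_mul_of_nonneg_left ?_ (Nat.cast_nonneg M)
    have h1 : ∑ z ∈ F1.filter (fun z => z ∈ S), ω z ≤ ∑ z ∈ S, (Real.log r + |Real.log ‖z‖|) := by
      refine (Finset.sum_le_sum fun z _ => hωS z).trans ?_
      refine Finset.sum_le_sum_of_subset_of_nonneg
        (fun z hz => (Finset.mem_filter.1 hz).2) fun z _ _ => ?_
      have := Real.log_nonneg hr
      positivity
    refine h1.trans ?_
    rw [Finset.sum_add_distrib, Finset.sum_const, nsmul_eq_mul]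
  · rw [Finset.mul_sum]
    have h1 : ∀ z ∈ F1.filter (fun z => ¬ z ∈ S), (M : ℝ) * ω z ≤ D z * ω z := by
      intro z hz
      obtain ⟨h2, h3⟩ := Finset.mem_filter.1 hz
      exact mul_le_mul_of_nonneg_right (hD1 z h3 ((hF1' z).1 h2).1) (hω0 z h2)
    refine (Finset.sum_le_sum h1).trans ?_
    exact Finset.sum_le_sum_of_subset_of_nonneg (Finset.filter_subset _ _)
      fun z hz _ => mul_nonneg (hDnn z) (hω0 z hz)

/-- **Highly ramified curves are constant**, with exceptional points. -/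
theorem ram_const' (hVEC : H60S.S_VEC) (hIND : H60S.S_IND) (hGMC : H60S.S_GMC)
    (hRAT : H60S.S_RAT) (n d e : ℕ) :
    ∃ (B M : ℕ), ∀ F : MvPolynomial (Fin (n + 1)) ℂ, F.IsHomogeneous d →
      (∀ T, ¬ GmBdd (Ideal.span {F}) 1 B T) → ∀ g : Fin (n + 1) → ℂ → ℂ,
      (∀ j, Differentiable ℂ (g j)) → (∀ z, ∃ j, g j z ≠ 0) → (∀ z, eval (fun j => g j z) F = 0) →
      ∀ A : Matrix (Fin (n + 1)) (Fin (n + 1)) ℂ, IsUnit A.det →
      ∀ S : Finset ℂ, S.card ≤ e →
      (∀ i, (∃ z, ∑ j, A i j * g j z ≠ 0) → ∀ z, z ∉ S → ∑ j, A i j * g j z = 0 →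
        (M : ℕ∞) ≤ analyticOrderAt (fun z => ∑ j, A i j * g j z) z) →
      ∀ s t j k, g j s * g k t = g k s * g j t := by
  classical
  obtain ⟨B, C, hC0, hC⟩ := smt hVEC hIND hGMC hRAT n d
  set M : ℕ := ⌈2 * C * (n + 1)⌉₊ + 1 with hM
  set D : ℝ := 2 * C * (n + 1) * e with hD
  have hD0 : 0 ≤ D := by positivity
  refine ⟨max B ⌈8 * D⌉₊, M, fun F hF hno g hg g0 gF A hA S hS hram => ?_⟩
  by_contra hnc
  push Not at hnc
  have hno1 : ∀ T, ¬ GmBdd (Ideal.span {F}) 1 B T := fun T hT =>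
    hno T ⟨fun j => (hT.deg j).trans (le_max_left _ _), hT.mem, hT.off, hT.nc⟩
  let I : Finset (Fin (n + 1)) := Finset.univ.filter fun i => ∃ z, ∑ j, A i j * g j z ≠ 0
  have hI : ∀ i, i ∈ I ↔ ∃ z, ∑ j, A i j * g j z ≠ 0 := fun i => by
    simp only [I, Finset.mem_filter, Finset.mem_univ, true_and]
  obtain ⟨E, hE, hb⟩ := hC F hF hno1 g hg g0 gF hnc A hA I hI
  have hM1 : 2 * C * (n + 1) ≤ M := by
    have h1 := Nat.le_ceil (2 * C * (n + 1))
    rw [hM]
    push_cast
    linarith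
  have hM0 : (1 : ℝ) ≤ M := by
    rw [hM]
    push_cast
    have : (0 : ℝ) ≤ (⌈2 * C * ((n : ℝ) + 1)⌉₊ : ℝ) := Nat.cast_nonneg _
    linarith
  -- the counting functions
  have hcnt : ∀ i, ∃ c : ℝ, i ∈ I → ∀ r, 1 ≤ r →
      M * Nb (fun z => ∑ j, A i j * g j z) r ≤ M * (e * Real.log r + c) + Tf g r := by
    intro i
    by_cases hi : i ∈ I
    · have hi' := (hI i).1 hi
      obtain ⟨c, hc⟩ := count_le_Tf hg g0 (A i) hi'
      obtain ⟨c', hc'⟩ := Nb_split (f := fun z => ∑ j, A i j * g j z)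
        (Differentiable.fun_sum fun j _ => (hg j).const_mul _) hi' S (hram i hi')
      refine ⟨c' + |c|, fun _ r hr => ?_⟩
      have h1 := hc r hr
      have h2 := hc' r hr
      have h3 : (S.card : ℝ) * Real.log r ≤ e * Real.log r :=
        mul_le_mul_of_nonneg_right (by exact_mod_cast hS) (Real.log_nonneg hr)
      have h4 := le_abs_self c
      have h5 : |c| ≤ M * |c| := by nlinarith [abs_nonneg c]
      have h6 : (M : ℝ) * (S.card * Real.log r + c') ≤ M * (e * Real.log r + c') :=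
        mul_le_mul_of_nonneg_left (by linarith) (by linarith)
      nlinarith
    · exact ⟨0, fun h => absurd h hi⟩
  choose c hc using hcnt
  set c' : ℝ := ∑ i, |c i| with hc'
  have hc'0 : 0 ≤ c' := Finset.sum_nonneg fun i _ => abs_nonneg _
  obtain ⟨s, t, j, k, hne⟩ := hnc
  apply hne
  refine log_const hRAT (D := D) (C := 2 * C * c') hD0 ?_ hF hno hg g0 gF (fun R => ?_) s t j k
  · have h1 := Nat.le_ceil (8 * D)
    have h2 : ((⌈8 * D⌉₊ : ℕ) : ℝ) ≤ ((max B ⌈8 * D⌉₊ : ℕ) : ℝ) := by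
      exact_mod_cast le_max_right _ _
    exact h1.trans h2
  · obtain ⟨r, hr, hrE⟩ := exists_large hE (max R 1)
    have hr1 : R ≤ r := (le_max_left _ _).trans hr
    have hr2 : 1 ≤ r := (le_max_right _ _).trans hr
    refine ⟨r, hr1, ?_⟩
    have h2 := hb r hr2 hrE
    have a3 := Real.log_nonneg hr2
    rcases le_or_gt (Tf g r) 0 with hT | hT
    · have : 0 ≤ D * Real.log r + 2 * C * c' := by positivity
      linarith
    · have h3 : M * ∑ i ∈ I, Nb (fun z => ∑ j, A i j * g j z) r ≤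
          M * ((n + 1) * e * Real.log r + c') + (n + 1) * Tf g r := by
        rw [Finset.mul_sum]
        have h4 : ∀ i ∈ I, M * Nb (fun z => ∑ j, A i j * g j z) r ≤
            M * (e * Real.log r + |c i|) + Tf g r := fun i hi => by
          have h5 := hc i hi r hr2
          have h6 : (M : ℝ) * (e * Real.log r + c i) ≤ M * (e * Real.log r + |c i|) :=
            mul_le_mul_of_nonneg_left (by linarith [le_abs_self (c i)]) (by linarith)
          linarith
        refine (Finset.sum_le_sum h4).trans ?_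
        refine (Finset.sum_le_sum_of_subset_of_nonneg (Finset.subset_univ I)
          fun i _ _ => by positivity).trans ?_
        rw [Finset.sum_add_distrib, ← Finset.mul_sum, Finset.sum_add_distrib, Finset.sum_const,
          Finset.sum_const, Finset.card_univ, Fintype.card_fin, nsmul_eq_mul, nsmul_eq_mul]
        push_cast
        apply le_of_eq
        ring
      set Sg : ℝ := ∑ i ∈ I, Nb (fun z => ∑ j, A i j * g j z) r with hSg
      -- `Sg ≤ (n + 1) e log r + c' + (n + 1) T / M`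
      have h4 : Sg ≤ ((n + 1) * e * Real.log r + c') + (n + 1) * Tf g r / M := by
        have hMp : (0 : ℝ) < M := by linarith
        rw [← mul_le_mul_iff_of_pos_left hMp]
        have h5 : (M : ℝ) * (((n + 1) * e * Real.log r + c') + (n + 1) * Tf g r / M) =
            M * ((n + 1) * e * Real.log r + c') + (n + 1) * Tf g r := by
          field_simp
        linarith
      have h5 : C * ((n + 1) * Tf g r / M) ≤ Tf g r / 2 := by
        have hMp : (0 : ℝ) < M := by linarith
        have h6 : C * ((n + 1) * Tf g r / M) = (2 * C * (n + 1)) * Tf g r / (2 * M) := by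
          field_simp
        rw [h6, div_le_iff₀ (by positivity)]
        have h7 := mul_le_mul_of_nonneg_right hM1 hT.le
        linarith
      have h6 : C * Sg ≤ C * (((n + 1) * e * Real.log r + c')) + Tf g r / 2 := by
        have h7 := mul_le_mul_of_nonneg_left h4 hC0
        rw [mul_add] at h7
        linarith
      have h7 : D * Real.log r + 2 * C * c' = 2 * (C * ((n + 1) * e * Real.log r + c')) := by
        rw [hD]
        ring
      rw [h7]
      linarith

end Pool.Agent.H60K
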