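import Pool.Agent.H60K.Base
import Pool.Agent.H159R3.Toric.Spec

/-!
Polynomial relations between `N`-th powers of entire functions and one-parameter groups.
-/

set_option autoImplicit false

namespace Pool.Agent.H60K

open MvPolynomial
open scoped Topology

variable {m : ℕ}

/-- a polynomial relation between `N`-th powers holds on the orbit of a one-parameter group -/
theorem spec_pow {N M : ℕ} (hN : 0 < N) (G : MvPolynomial (Fin m) ℂ) (hG : ∀ i, G.degreeOf i ≤ M)
    (hS : (G.support.card - 1) ^ 2 ≤ N) (k : Fin m → ℂ → ℂ) (hk : ∀ i, Differentiable ℂ (k i))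
    (hGk : ∀ z, eval (fun i => k i z ^ N) G = 0) (z0 : ℂ) (b : Fin m → ℤ)
    (hb : ∀ q : Fin m → ℤ, (∀ i, |q i| ≤ (M : ℤ)) →
      ∑ i, (q i : ℂ) * (deriv (k i) z0 / k i z0) = 0 → ∑ i, q i * b i = 0)
    (s : ℂ) (hs : s ≠ 0) : eval (fun i => k i z0 ^ N * s ^ b i) G = 0 := by
  classical
  obtain ⟨τ, hτ⟩ := IsAlgClosed.exists_pow_nat_eq s hN
  have hτ0 : τ ≠ 0 := by
    intro h0
    rw [h0, zero_pow hN.ne'] at hτ
    exact hs hτ.symm
  have hmain := Pool.Agent.H159R3.Toric.spec_sum hN (ι := {α // α ∈ G.support})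
    (fun α z => ∏ i, k i z ^ (α : Fin m →₀ ℕ) i)
    (fun α => Differentiable.fun_finsetProd fun i _ => (hk i).pow _)
    (fun α => (∏ i, k i z0 ^ (α : Fin m →₀ ℕ) i) * τ ^ ∑ i, ((α : Fin m →₀ ℕ) i : ℤ) * b i)
    (fun α hα => by rw [hα z0, zero_mul]) ?_ Finset.univ
    (by rw [Finset.card_univ, Fintype.card_coe]; exact hS) (fun α => coeff α G) ?_
  · have e1 : eval (fun i => k i z0 ^ N * s ^ b i) G = ∑ α : {α // α ∈ G.support},
        coeff (α : Fin m →₀ ℕ) G * ((∏ i, k i z0 ^ (α : Fin m →₀ ℕ) i) *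
          τ ^ ∑ i, ((α : Fin m →₀ ℕ) i : ℤ) * b i) ^ N := by
      rw [eval_eq', ← Finset.sum_coe_sort]
      refine Finset.sum_congr rfl fun α _ => ?_
      rw [mul_pow]
      congr 1
      have e2 : (τ ^ ∑ i, ((α : Fin m →₀ ℕ) i : ℤ) * b i) ^ N
          = ∏ i, (s ^ b i) ^ (α : Fin m →₀ ℕ) i := by
        rw [← prod_zpow hτ0 b fun i => ((α : Fin m →₀ ℕ) i : ℤ), ← Finset.prod_pow]
        refine Finset.prod_congr rfl fun i _ => ?_
        rw [zpow_natCast, ← pow_mul, mul_comm, pow_mul, ← hτ]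
        congr 1
        rw [← zpow_natCast, ← zpow_natCast, ← zpow_mul, ← zpow_mul, mul_comm]
      rw [e2, ← Finset.prod_pow, ← Finset.prod_mul_distrib]
      refine Finset.prod_congr rfl fun i _ => ?_
      rw [mul_pow, ← pow_mul, ← pow_mul, mul_comm N]
    rw [e1]
    exact hmain
  · intro α β a hab
    have hnz : ∀ γ ∈ G.support, (∏ i, k i z0 ^ γ i ≠ 0) →
        logDeriv (fun z => ∏ i, k i z ^ γ i) z0 = ∑ i, (γ i : ℂ) * (deriv (k i) z0 / k i z0) := by
      intro γ _ h1
      rw [Finset.prod_ne_zero_iff] at h1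
      rw [logDeriv_prod]
      · refine Finset.sum_congr rfl fun i _ => ?_
        rw [logDeriv_fun_pow (hk i z0)]
        rfl
      · intro j hj
        exact h1 j hj
      · intro j _
        exact ((hk j z0).pow _)
    have h0 := hab z0
    by_cases hα : ∏ i, k i z0 ^ (α : Fin m →₀ ℕ) i = 0
    · have h2 : a * ∏ i, k i z0 ^ (β : Fin m →₀ ℕ) i = 0 := by rw [← h0]; exact hα
      rw [hα, zero_mul, ← mul_assoc, h2, zero_mul]
    · have ha : a ≠ 0 := by
        intro ha
        rw [ha, zero_mul] at h0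
        exact hα h0
      have hβ : ∏ i, k i z0 ^ (β : Fin m →₀ ℕ) i ≠ 0 := by
        intro hβ
        rw [hβ, mul_zero] at h0
        exact hα h0
      have h3 := hnz α α.2 hα
      have h4 := hnz β β.2 hβ
      have h5 : logDeriv (fun z => ∏ i, k i z ^ (α : Fin m →₀ ℕ) i) z0
          = logDeriv (fun z => ∏ i, k i z ^ (β : Fin m →₀ ℕ) i) z0 := by
        have e3 : (fun z => ∏ i, k i z ^ (α : Fin m →₀ ℕ) i)
            = fun z => a * ∏ i, k i z ^ (β : Fin m →₀ ℕ) i := funext hab
        rw [e3, logDeriv_const_mul z0 a ha]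
      have h6 : ∑ i, (((α : Fin m →₀ ℕ) i : ℤ) - ((β : Fin m →₀ ℕ) i : ℤ)) * b i = 0 := by
        apply hb
        · intro i
          have h7 : (α : Fin m →₀ ℕ) i ≤ M := degreeOf_le_iff.1 (hG i) _ α.2
          have h8 : (β : Fin m →₀ ℕ) i ≤ M := degreeOf_le_iff.1 (hG i) _ β.2
          rw [abs_le]
          constructor <;> omega
        · push_cast
          simp only [sub_mul]
          rw [Finset.sum_sub_distrib, ← h3, ← h4, h5, sub_self]
      have h7 : ∑ i, ((α : Fin m →₀ ℕ) i : ℤ) * b i = ∑ i, ((β : Fin m →₀ ℕ) i : ℤ) * b i := by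
        simp only [sub_mul] at h6
        rw [Finset.sum_sub_distrib] at h6
        linarith
      rw [h7, h0]
      ring
  · intro z
    have h1 := hGk z
    rw [eval_eq', ← Finset.sum_coe_sort] at h1
    rw [← h1]
    refine Finset.sum_congr rfl fun α _ => ?_
    rw [← Finset.prod_pow]
    congr 1
    refine Finset.prod_congr rfl fun i _ => ?_
    rw [← pow_mul, ← pow_mul, mul_comm]

/-- a point at which finitely many entire functions do not vanish unless they vanish identically -/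
theorem exists_good {ι : Type} [Finite ι] (f : ι → ℂ → ℂ) (hf : ∀ i, Differentiable ℂ (f i)) :
    ∃ z0, ∀ i, (∃ z, f i z ≠ 0) → f i z0 ≠ 0 := by
  have h1 : ∀ i, ∀ᶠ z in 𝓝[≠] (0 : ℂ), (∃ z, f i z ≠ 0) → f i z ≠ 0 := by
    intro i
    by_cases hi : ∃ z, f i z ≠ 0
    · obtain ⟨x, hx⟩ := hi
      filter_upwards [Pool.Agent.H159R3.NV.ev_ne (hf i) hx 0] with z hz _
      exact hz
    · exact Filter.Eventually.of_forall fun z h => absurd h hi
  obtain ⟨z0, h⟩ := (Filter.eventually_all.2 h1).exists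
  exact ⟨z0, h⟩

/-- entire functions which agree on a nonempty open set are equal -/
theorem eq_of_open {f g : ℂ → ℂ} (hf : Differentiable ℂ f) (hg : Differentiable ℂ g) {U : Set ℂ}
    (hU : IsOpen U) (hne : U.Nonempty) (h : ∀ z ∈ U, f z = g z) : ∀ z, f z = g z := by
  obtain ⟨z1, hz1⟩ := hne
  have h1 : f =ᶠ[𝓝 z1] g := by
    filter_upwards [hU.mem_nhds hz1] with z hz
    exact h z hz
  have h2 := AnalyticOnNhd.eq_of_eventuallyEq (f := f) (g := g) (fun z _ => hf.analyticAt z)
    (fun z _ => hg.analyticAt z) h1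
  exact fun z => congrFun h2 z

/-- a vector of entire functions with vanishing Wronskians is constant in the projective space -/
theorem const_of_wron {n : ℕ} (g p : Fin (n + 1) → ℂ → ℂ) (hg : ∀ j, Differentiable ℂ (g j))
    (hg0 : ∀ z, ∃ j, g j z ≠ 0) (hp : ∀ j, Differentiable ℂ (p j)) (U : Set ℂ) (hU : IsOpen U)
    (hne : U.Nonempty) (u : ℂ → ℂ) (hu : ∀ z ∈ U, u z ≠ 0) (hgp : ∀ z ∈ U, ∀ j, u z * g j z = p j z)
    (hw : ∀ j l z, deriv (p j) z * p l z - p j z * deriv (p l) z = 0) :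
    ∀ z, ∃ c : ℂ, ∀ j, g j z = c * g j 0 := by
  obtain ⟨z1, hz1⟩ := hne
  obtain ⟨l, hl⟩ := hg0 z1
  have hpl : p l z1 ≠ 0 := by
    rw [← hgp z1 hz1 l]
    exact mul_ne_zero (hu z1 hz1) hl
  have h1 : ∀ j, ∀ z, p j z * p l z1 = p j z1 * p l z := by
    intro j
    have hV : IsOpen {z | p l z ≠ 0} := isOpen_ne_fun (hp l).continuous continuous_const
    obtain ⟨r, hr, hball⟩ := Metric.isOpen_iff.1 hV z1 hpl
    have h2 : ∀ z ∈ Metric.ball z1 r, p j z / p l z = p j z1 / p l z1 := by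
      intro z hz
      have hD : DifferentiableOn ℂ (fun z => p j z / p l z) (Metric.ball z1 r) := fun w hw' =>
        ((hp j w).div (hp l w) (hball hw')).differentiableWithinAt
      refine (convex_ball z1 r).is_const_of_fderivWithin_eq_zero (𝕜 := ℂ) hD ?_ hz
        (Metric.mem_ball_self hr)
      intro w hw'
      rw [fderivWithin_of_isOpen Metric.isOpen_ball hw']
      have h3 : HasDerivAt (fun z => p j z / p l z) 0 w := by
        have h4 := ((hp j w).hasDerivAt).div ((hp l w).hasDerivAt) (hball hw')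
        rw [hw j l w, zero_div] at h4
        exact h4
      rw [h3.hasFDerivAt.fderiv]
      ext
      simp
    refine eq_of_open ((hp j).mul_const _) ((hp l).const_mul _) Metric.isOpen_ball
      ⟨z1, Metric.mem_ball_self hr⟩ fun z hz => ?_
    have h3 := h2 z hz
    rw [div_eq_div_iff (hball hz) hpl] at h3
    exact h3
  have h2 : ∀ j, ∀ z, g j z * p l z1 = p j z1 * g l z := by
    intro j
    refine eq_of_open ((hg j).mul_const _) ((hg l).const_mul _) hU ⟨z1, hz1⟩ fun z hz => ?_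
    have h3 := h1 j z
    rw [← hgp z hz j, ← hgp z hz l] at h3
    apply mul_left_cancel₀ (hu z hz)
    linear_combination h3
  have h3 : ∀ z, g l z ≠ 0 := by
    intro z h0
    obtain ⟨j, hj⟩ := hg0 z
    have h4 := h2 j z
    rw [h0, mul_zero] at h4
    exact (mul_ne_zero hj hpl) h4
  refine fun z => ⟨g l z / g l 0, fun j => ?_⟩
  have h4 := h2 j z
  have h5 := h2 j 0
  rw [div_mul_eq_mul_div, eq_div_iff (h3 0)]
  apply mul_right_cancel₀ hpl
  linear_combination g l 0 * h4 - g l z * h5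

/-- the support of a polynomial with bounded degrees -/
theorem card_support_le {M : ℕ} (G : MvPolynomial (Fin m) ℂ) (hG : ∀ i, G.degreeOf i ≤ M) :
    G.support.card ≤ (M + 1) ^ m := by
  classical
  have h1 : G.support.card ≤ Fintype.card (Fin m → Fin (M + 1)) := by
    rw [← Finset.card_univ]
    refine Finset.card_le_card_of_injOn
      (fun α i => ⟨min (α i) M, Nat.lt_succ_of_le (min_le_right _ _)⟩) (fun _ _ => Finset.mem_coe.2 (Finset.mem_univ _)) ?_
    intro α hα β hβ hab
    ext i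
    have h2 := congrArg (fun x : Fin m → Fin (M + 1) => (x i : ℕ)) hab
    simp only at h2
    have h3 : α i ≤ M := degreeOf_le_iff.1 (hG i) α hα
    have h4 : β i ≤ M := degreeOf_le_iff.1 (hG i) β hβ
    rwa [min_eq_left h3, min_eq_left h4] at h2
  simpa using h1

theorem degreeOf_bind {σ : Type} {n d e : ℕ} {F : MvPolynomial (Fin (n + 1)) ℂ}
    (hF : F.IsHomogeneous d) (P : Fin (n + 1) → MvPolynomial σ ℂ)
    (i : σ) (hP : ∀ j, (P j).degreeOf i ≤ e) : (bind₁ P F).degreeOf i ≤ d * e := by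
  classical
  have h1 : bind₁ P F = ∑ α ∈ F.support, C (coeff α F) * ∏ j, P j ^ α j := by
    conv_lhs => rw [F.as_sum]
    rw [map_sum]
    refine Finset.sum_congr rfl fun α _ => ?_
    rw [bind₁_monomial]
    congr 1
    refine Finset.prod_subset (Finset.subset_univ _) fun j _ hj => ?_
    rw [Finsupp.notMem_support_iff.1 hj, pow_zero]
  rw [h1]
  refine (degreeOf_sum_le _ _ _).trans (Finset.sup_le fun α hα => ?_)
  refine (degreeOf_C_mul_le _ _ _).trans ((degreeOf_prod_le _ _ _).trans ?_)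
  have h2 : ∀ j ∈ (Finset.univ : Finset (Fin (n + 1))), degreeOf i (P j ^ α j) ≤ α j * e :=
    fun j _ => (degreeOf_pow_le _ _ _).trans (Nat.mul_le_mul_left _ (hP j))
  refine (Finset.sum_le_sum h2).trans ?_
  rw [← Finset.sum_mul]
  have h6 : ∑ j, α j = d := by
    rw [← Finsupp.degree_eq_sum]
    have := hF (mem_support_iff.1 hα)
    rwa [Finsupp.degree_eq_weight_one]
  rw [h6]

end Pool.Agent.H60K
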